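import Pool.Agent.Lib.HyS.PrE

/-!
# HyN: the automorphisms of a cycle are dihedral
-/

namespace Pool.Agent.Lib.HyS

theorem dih_of_rot {n : ℕ} (hn : 3 ≤ n) (r : Equiv.Perm (Fin n)) (x : Fin n)
    (hr : ∀ y, ∃ i : ℕ, (r ^ i) x = y) (hrn : r ^ n = 1) (h2 : ∀ a, r (r a) ≠ a)
    (G : Subgroup (Equiv.Perm (Fin n)))
    (hG : ∀ σ ∈ G, ∀ a, σ (r a) = r (σ a) ∨ σ a = r (σ (r a))) :
    ∃ ρ : Equiv.Perm (Fin n), ∀ σ ∈ G, ρ * σ * ρ⁻¹ ∈ dihedral n := by
  obtain ⟨ρ, hρ, hρt⟩ := conj_dihedral hn r x (fun y => by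
    obtain ⟨i, hi⟩ := hr y
    exact ⟨(i : ℤ), by rw [zpow_natCast]; exact hi⟩) hrn
  refine ⟨ρ, fun σ hσ => ?_⟩
  have hcase := hG σ hσ
  obtain ⟨s, hs⟩ := hr (σ x)
  have hρs : ρ * r ^ s * ρ⁻¹ ∈ dihedral n := by
    have h := hρ (s : ℤ)
    rwa [zpow_natCast] at h
  by_cases hx : σ (r x) = r (σ x)
  · have hall : ∀ a, σ (r a) = r (σ a) := by
      intro a
      obtain ⟨i, rfl⟩ := hr a
      induction i with
      | zero => simpa using hx
      | succ i ih =>
        rw [pow_succ', Equiv.Perm.mul_apply]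
        rcases hcase (r ((r ^ i) x)) with h | h
        · exact h
        · exfalso
          rw [ih] at h
          exact h2 _ (σ.injective (r.injective h)).symm
    have hpow : ∀ i : ℕ, σ ((r ^ i) x) = (r ^ i) (σ x) := by
      intro i
      induction i with
      | zero => simp
      | succ i ih => rw [pow_succ', Equiv.Perm.mul_apply, Equiv.Perm.mul_apply, hall, ih]
    have hσr : σ = r ^ s := by
      ext1 y
      obtain ⟨i, rfl⟩ := hr y
      rw [hpow, ← hs, ← Equiv.Perm.mul_apply, ← Equiv.Perm.mul_apply, ← pow_add, ← pow_add,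
        add_comm]
    rw [hσr]
    exact hρs
  · have hx' : σ x = r (σ (r x)) := (hcase x).resolve_left hx
    have hall : ∀ a, σ a = r (σ (r a)) := by
      intro a
      obtain ⟨i, rfl⟩ := hr a
      induction i with
      | zero => simpa using hx'
      | succ i ih =>
        rw [pow_succ', Equiv.Perm.mul_apply]
        rcases hcase (r ((r ^ i) x)) with h | h
        · exfalso
          rw [← ih] at h
          exact h2 _ (σ.injective h)
        · exact h
    have hconj : σ * r * σ⁻¹ = r⁻¹ := by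
      rw [eq_inv_iff_mul_eq_one]
      have h : r * σ * r = σ := by
        ext1 a
        rw [Equiv.Perm.mul_apply, Equiv.Perm.mul_apply]
        exact (hall a).symm
      have h3 : σ * r = r⁻¹ * σ := by
        rw [eq_inv_mul_iff_mul_eq, ← mul_assoc]
        exact h
      rw [h3]
      group
    have ht1 : ((r ^ s)⁻¹ * σ) x = x := by
      rw [Equiv.Perm.mul_apply, ← hs, ← Equiv.Perm.mul_apply, inv_mul_cancel, Equiv.Perm.one_apply]
    have ht2 : ((r ^ s)⁻¹ * σ) * r * ((r ^ s)⁻¹ * σ)⁻¹ = r⁻¹ := by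
      have h : ((r ^ s)⁻¹ * σ) * r * ((r ^ s)⁻¹ * σ)⁻¹ = (r ^ s)⁻¹ * (σ * r * σ⁻¹) * r ^ s := by
        group
      rw [h, hconj]
      group
    have h4 := (dihedral n).mul_mem hρs (hρt _ ht1 ht2)
    have h5 : ρ * r ^ s * ρ⁻¹ * (ρ * ((r ^ s)⁻¹ * σ) * ρ⁻¹) = ρ * σ * ρ⁻¹ := by group
    rwa [h5] at h4

theorem rot_facts {n : ℕ} (hn : 3 ≤ n) (c : Equiv.Perm (Fin n)) :
    (∀ x y, ∃ i : ℕ, ((c * finRotate n * c⁻¹) ^ i) x = y) ∧ (c * finRotate n * c⁻¹) ^ n = 1 ∧
    (∀ a, (c * finRotate n * c⁻¹) a ≠ a) ∧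
    ∀ a, (c * finRotate n * c⁻¹) ((c * finRotate n * c⁻¹) a) ≠ a := by
  obtain ⟨m, rfl⟩ : ∃ m, n = m + 1 := ⟨n - 1, by omega⟩
  have hcyc : (finRotate (m + 1)).IsCycle := isCycle_finRotate_of_le (by omega)
  have hsupp : (finRotate (m + 1)).support = Finset.univ := support_finRotate_of_le (by omega)
  have hne : ∀ a, finRotate (m + 1) a ≠ a := by
    intro a
    have h : a ∈ (finRotate (m + 1)).support := by rw [hsupp]; exact Finset.mem_univ _
    exact Equiv.Perm.mem_support.1 h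
  have hne2 : ∀ a, finRotate (m + 1) (finRotate (m + 1) a) ≠ a := by
    intro a h
    rw [finRotate_apply, finRotate_apply] at h
    have h1 := congrArg Fin.val h
    rw [Fin.val_add, Fin.val_add, Fin.val_one', Nat.add_mod_mod, Nat.add_mod_mod,
      Nat.mod_add_mod] at h1
    have ha := a.isLt
    rcases Nat.lt_or_ge (a.val + 1 + 1) (m + 1) with h2 | h2
    · rw [Nat.mod_eq_of_lt h2] at h1
      omega
    · rw [Nat.mod_eq_sub_mod h2, Nat.mod_eq_of_lt (by omega)] at h1
      omega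
  have hcyc' : (c * finRotate (m + 1) * c⁻¹).IsCycle := hcyc.conj
  have hne' : ∀ a, (c * finRotate (m + 1) * c⁻¹) a ≠ a := by
    intro a h
    rw [Equiv.Perm.mul_apply, Equiv.Perm.mul_apply] at h
    apply hne (c⁻¹ a)
    apply c.injective
    rw [h]
    exact (c.apply_symm_apply a).symm
  refine ⟨fun x y => hcyc'.exists_pow_eq (hne' x) (hne' y), ?_, hne', ?_⟩
  · have h1 : orderOf (finRotate (m + 1)) = m + 1 := by
      rw [hcyc.orderOf, hsupp, Finset.card_univ, Fintype.card_fin]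
    have h2 : (finRotate (m + 1)) ^ (m + 1) = 1 := orderOf_dvd_iff_pow_eq_one.1 (dvd_of_eq h1)
    rw [conj_pow, h2]
    group
  · intro a h
    rw [Equiv.Perm.mul_apply, Equiv.Perm.mul_apply, Equiv.Perm.mul_apply, Equiv.Perm.mul_apply] at h
    apply hne2 (c⁻¹ a)
    apply c.injective
    have h2 : c⁻¹ (c (finRotate (m + 1) (c⁻¹ a))) = finRotate (m + 1) (c⁻¹ a) :=
      c.symm_apply_apply _
    rw [h2] at h
    rw [h]
    exact (c.apply_symm_apply a).symm

/-- If the permutation `c` labels the points such that consecutive points form members of `D` and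
every member of `D` is of this form, then a group which leaves `D` invariant is conjugate to a
subgroup of the dihedral group. -/
theorem dih_of_label {n : ℕ} (hn : 3 ≤ n) (c : Equiv.Perm (Fin n))
    (G : Subgroup (Equiv.Perm (Fin n))) (D : Finset (Finset (Fin n)))
    (h1 : ∀ a, ({a, (c * finRotate n * c⁻¹) a} : Finset (Fin n)) ∈ D)
    (h2 : ∀ a b, ({a, b} : Finset (Fin n)) ∈ D →
      b = (c * finRotate n * c⁻¹) a ∨ a = (c * finRotate n * c⁻¹) b)
    (hinv : ∀ σ ∈ G, ∀ I ∈ D, I.map σ.toEmbedding ∈ D) :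
    ∃ ρ : Equiv.Perm (Fin n), ∀ σ ∈ G, ρ * σ * ρ⁻¹ ∈ dihedral n := by
  obtain ⟨hr, hrn, -, hr2⟩ := rot_facts hn c
  refine dih_of_rot hn (c * finRotate n * c⁻¹) ⟨0, by omega⟩ (hr _) hrn hr2 G ?_
  intro σ hσ a
  have h := hinv σ hσ _ (h1 a)
  rw [Finset.map_insert, Finset.map_singleton] at h
  exact h2 _ _ h

theorem cycle_dihedral {n : ℕ} (hn : 3 ≤ n) (c : Fin n ≃ Fin n)
    (G : Subgroup (Equiv.Perm (Fin n))) (D : Finset (Finset (Fin n)))
    (hD : D = Finset.univ.image (fun i => ({c i, c (finRotate n i)} : Finset (Fin n))))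
    (hinv : ∀ σ ∈ G, ∀ I ∈ D, I.map σ.toEmbedding ∈ D) :
    ∃ ρ : Equiv.Perm (Fin n), ∀ σ ∈ G, ρ * σ * ρ⁻¹ ∈ dihedral n := by
  have hr : ∀ i, ((c : Equiv.Perm (Fin n)) * finRotate n * (c : Equiv.Perm (Fin n))⁻¹) (c i) =
      c (finRotate n i) := by
    intro i
    rw [Equiv.Perm.mul_apply, Equiv.Perm.mul_apply]
    congr 2
    exact c.symm_apply_apply i
  refine dih_of_label hn c G D ?_ ?_ hinv
  · intro a
    rw [hD, Finset.mem_image]
    refine ⟨c.symm a, Finset.mem_univ _, ?_⟩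
    have h := hr (c.symm a)
    rw [Equiv.apply_symm_apply] at h
    rw [Equiv.apply_symm_apply, h]
  · intro a b hab
    rw [hD, Finset.mem_image] at hab
    obtain ⟨i, -, hi⟩ := hab
    obtain ⟨_, _, hne, _⟩ := rot_facts hn c
    have ha : a ∈ ({c i, c (finRotate n i)} : Finset (Fin n)) := by
      rw [hi]; exact Finset.mem_insert_self _ _
    have hb : b ∈ ({c i, c (finRotate n i)} : Finset (Fin n)) := by
      rw [hi]; exact Finset.mem_insert_of_mem (Finset.mem_singleton_self _)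
    have hab : a ≠ b := by
      intro h
      subst h
      have h3 : c i ∈ ({a, a} : Finset (Fin n)) := by rw [← hi]; exact Finset.mem_insert_self _ _
      have h4 : c (finRotate n i) ∈ ({a, a} : Finset (Fin n)) := by
        rw [← hi]; exact Finset.mem_insert_of_mem (Finset.mem_singleton_self _)
      rw [Finset.mem_insert, Finset.mem_singleton, or_self] at h3 h4
      apply hne (c i)
      rw [hr, h4, h3]
    rw [Finset.mem_insert, Finset.mem_singleton] at ha hb
    rcases ha with ha | ha <;> rcases hb with hb | hb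
    · exact absurd (ha.trans hb.symm) hab
    · left
      rw [ha, hb, hr]
    · right
      rw [ha, hb, hr]
    · exact absurd (ha.trans hb.symm) hab

end Pool.Agent.Lib.HyS
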