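import Pool.Agent.Lib.HyN.CycDih

/-!
# HyN: a connected 2-regular graph is a cycle, its automorphisms are dihedral
-/

namespace Pool.Agent.Lib.HyS

private theorem lab_pair {n : ℕ} (b : Fin n) (I : Finset (Fin n)) (h : I.card = 2) (hb : b ∈ I) :
    ∃ u, u ≠ b ∧ I = {b, u} := by
  have h1 : (I.erase b).card = 1 := by rw [Finset.card_erase_of_mem hb, h]
  obtain ⟨u, hu⟩ := Finset.card_eq_one.1 h1
  refine ⟨u, ?_, ?_⟩
  · have h2 : u ∈ I.erase b := by rw [hu]; exact Finset.mem_singleton_self _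
    exact (Finset.mem_erase.1 h2).1
  · rw [← Finset.insert_erase hb, hu]

private theorem lab_nbr {n : ℕ} (D : Finset (Finset (Fin n)))
    (h2 : ∀ I ∈ D, I.card = 2) (hdeg : ∀ a, (D.filter (fun I => a ∈ I)).card = 2) (b : Fin n) :
    ∃ u v, u ≠ v ∧ ∀ c, ({b, c} : Finset (Fin n)) ∈ D ↔ c = u ∨ c = v := by
  obtain ⟨I, J, hIJ, hF⟩ := Finset.card_eq_two.1 (hdeg b)
  have hI : I ∈ D.filter (fun I => b ∈ I) := by rw [hF]; exact Finset.mem_insert_self _ _
  have hJ : J ∈ D.filter (fun I => b ∈ I) := by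
    rw [hF]; exact Finset.mem_insert_of_mem (Finset.mem_singleton_self _)
  rw [Finset.mem_filter] at hI hJ
  obtain ⟨u, hu, rfl⟩ := lab_pair b I (h2 I hI.1) hI.2
  obtain ⟨v, hv, rfl⟩ := lab_pair b J (h2 J hJ.1) hJ.2
  refine ⟨u, v, ?_, ?_⟩
  · rintro rfl
    exact hIJ rfl
  · intro c
    constructor
    · intro hc
      have hcb : c ≠ b := by
        rintro rfl
        have h3 := h2 _ hc
        rw [Finset.pair_eq_singleton, Finset.card_singleton] at h3
        omega
      have h3 : ({b, c} : Finset (Fin n)) ∈ D.filter (fun I => b ∈ I) :=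
        Finset.mem_filter.2 ⟨hc, Finset.mem_insert_self _ _⟩
      rw [hF, Finset.mem_insert, Finset.mem_singleton] at h3
      have h4 : c ∈ ({b, c} : Finset (Fin n)) :=
        Finset.mem_insert_of_mem (Finset.mem_singleton_self _)
      rcases h3 with h3 | h3
      · left
        rw [h3, Finset.mem_insert, Finset.mem_singleton] at h4
        exact h4.resolve_left hcb
      · right
        rw [h3, Finset.mem_insert, Finset.mem_singleton] at h4
        exact h4.resolve_left hcb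
    · rintro (rfl | rfl)
      · exact hI.1
      · exact hJ.1

private theorem lab_seq {n : ℕ} (D : Finset (Finset (Fin n)))
    (h2 : ∀ I ∈ D, I.card = 2) (hdeg : ∀ a, (D.filter (fun I => a ∈ I)).card = 2) (x : Fin n) :
    ∃ v : ℕ → Fin n, v 0 = x ∧ (∀ i, ({v i, v (i + 1)} : Finset (Fin n)) ∈ D) ∧
      (∀ i, v (i + 2) ≠ v i) ∧
      ∀ i d, ({v (i + 1), d} : Finset (Fin n)) ∈ D → d = v i ∨ d = v (i + 2) := by
  have hoth : ∀ b a, ({b, a} : Finset (Fin n)) ∈ D → ∃ c, c ≠ a ∧ ({b, c} : Finset (Fin n)) ∈ D ∧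
      ∀ d, ({b, d} : Finset (Fin n)) ∈ D → d = a ∨ d = c := by
    intro b a hba
    obtain ⟨u, v, huv, hN⟩ := lab_nbr D h2 hdeg b
    rcases (hN a).1 hba with rfl | rfl
    · exact ⟨v, huv.symm, (hN v).2 (Or.inr rfl), fun d hd => (hN d).1 hd⟩
    · exact ⟨u, huv, (hN u).2 (Or.inl rfl), fun d hd => ((hN d).1 hd).symm⟩
  haveI : Nonempty (Fin n) := ⟨x⟩
  choose! oth ho1 ho2 ho3 using hoth
  obtain ⟨u, v, huv, hN⟩ := lab_nbr D h2 hdeg x
  let s : ℕ → Fin n × Fin n := fun i => Nat.rec (x, u) (fun _ p => (p.2, oth p.2 p.1)) i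
  have hs0 : s 0 = (x, u) := rfl
  have hs1 : ∀ i, s (i + 1) = ((s i).2, oth (s i).2 (s i).1) := fun i => rfl
  have hadj : ∀ i, ({(s i).1, (s i).2} : Finset (Fin n)) ∈ D := by
    intro i
    induction i with
    | zero => rw [hs0]; exact (hN u).2 (Or.inl rfl)
    | succ i ih =>
      rw [hs1]
      rw [Finset.pair_comm] at ih
      exact ho2 _ _ ih
  have hadj' : ∀ i, ({(s i).2, (s i).1} : Finset (Fin n)) ∈ D := by
    intro i
    rw [Finset.pair_comm]
    exact hadj i
  have e1 : ∀ i, (s (i + 1)).1 = (s i).2 := fun i => rfl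
  have e2 : ∀ i, (s (i + 2)).1 = oth (s i).2 (s i).1 := fun i => rfl
  refine ⟨fun i => (s i).1, rfl, ?_, ?_, ?_⟩
  · intro i
    show ({(s i).1, (s (i + 1)).1} : Finset (Fin n)) ∈ D
    rw [e1]
    exact hadj i
  · intro i
    show (s (i + 2)).1 ≠ (s i).1
    rw [e2]
    exact ho1 _ _ (hadj' i)
  · intro i d hd
    show d = (s i).1 ∨ d = (s (i + 2)).1
    rw [e2]
    refine ho3 _ _ (hadj' i) d ?_
    rw [← e1]
    exact hd

private theorem lab_inj {n : ℕ} (D : Finset (Finset (Fin n)))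
    (h2 : ∀ I ∈ D, I.card = 2) (v : ℕ → Fin n)
    (ha : ∀ i, ({v i, v (i + 1)} : Finset (Fin n)) ∈ D) (hb : ∀ i, v (i + 2) ≠ v i)
    (hc : ∀ i d, ({v (i + 1), d} : Finset (Fin n)) ∈ D → d = v i ∨ d = v (i + 2)) :
    ∃ j, 3 ≤ j ∧ v j = v 0 ∧ ∀ a b, a < j → b < j → v a = v b → a = b := by
  classical
  have hirr : ∀ a, ({a, a} : Finset (Fin n)) ∉ D := by
    intro a h
    have h3 := h2 _ h
    rw [Finset.pair_eq_singleton, Finset.card_singleton] at h3
    omega
  have hex : ∃ j, ∃ i, i < j ∧ v i = v j := by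
    obtain ⟨i, j, hij, h⟩ := Finite.exists_ne_map_eq_of_infinite v
    rcases Nat.lt_or_gt_of_ne hij with h1 | h1
    · exact ⟨j, i, h1, h⟩
    · exact ⟨i, j, h1, h.symm⟩
  obtain ⟨j, hj⟩ : ∃ j, j = Nat.find hex := ⟨_, rfl⟩
  obtain ⟨i, hij, hv⟩ : ∃ i, i < j ∧ v i = v j := by rw [hj]; exact Nat.find_spec hex
  have hmin : ∀ j' < j, ∀ i' < j', v i' ≠ v j' := by
    intro j' h1 i' h3 h4
    rw [hj] at h1
    exact Nat.find_min hex h1 ⟨i', h3, h4⟩
  have hi0 : i = 0 := by
    by_contra hi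
    obtain ⟨i', rfl⟩ : ∃ i', i = i' + 1 := ⟨i - 1, by omega⟩
    obtain ⟨j', rfl⟩ : ∃ j', j = j' + 1 := ⟨j - 1, by omega⟩
    have h1 : ({v (i' + 1), v j'} : Finset (Fin n)) ∈ D := by
      rw [hv, Finset.pair_comm]
      exact ha j'
    rcases hc i' _ h1 with h | h
    · exact hmin j' (by omega) i' (by omega) h.symm
    · rcases lt_trichotomy (i' + 2) j' with h3 | h3 | h3
      · exact hmin j' (by omega) (i' + 2) h3 h.symm
      · subst h3
        exact hb (i' + 1) hv.symm
      · have h4 : j' = i' + 1 := by omega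
        subst h4
        have h5 := ha (i' + 1)
        rw [← h] at h5
        exact hirr _ h5
  subst hi0
  refine ⟨j, ?_, hv.symm, ?_⟩
  · by_contra hj3
    rcases (by omega : j = 1 ∨ j = 2) with h | h
    · rw [h] at hv
      have h5 := ha 0
      rw [Nat.zero_add, ← hv] at h5
      exact hirr _ h5
    · rw [h] at hv
      exact hb 0 hv.symm
  · intro a b h1 h3 h4
    rcases lt_trichotomy a b with h5 | h5 | h5
    · exact absurd h4 (hmin b h3 a h5)
    · exact h5
    · exact absurd h4.symm (hmin a h1 b h5)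

theorem cycle_dihedral' {n : ℕ} (hn : 3 ≤ n) (D : Finset (Finset (Fin n)))
    (h2 : ∀ I ∈ D, I.card = 2) (hdeg : ∀ a, (D.filter (fun I => a ∈ I)).card = 2) (x : Fin n)
    (hconn : ∀ S : Finset (Fin n), x ∈ S →
      (∀ a ∈ S, ∀ b, ({a, b} : Finset (Fin n)) ∈ D → b ∈ S) → S = Finset.univ)
    (G : Subgroup (Equiv.Perm (Fin n)))
    (hinv : ∀ σ ∈ G, ∀ I ∈ D, I.map σ.toEmbedding ∈ D) :
    ∃ ρ : Equiv.Perm (Fin n), ∀ σ ∈ G, ρ * σ * ρ⁻¹ ∈ dihedral n := by
  classical
  obtain ⟨v, hv0, ha, hb, hc⟩ := lab_seq D h2 hdeg x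
  obtain ⟨j, hj3, hj0, hinj⟩ := lab_inj D h2 v ha hb hc
  have hN := lab_nbr D h2 hdeg
  have htwo : ∀ a b c d, b ≠ c → ({a, b} : Finset (Fin n)) ∈ D → ({a, c} : Finset (Fin n)) ∈ D →
      ({a, d} : Finset (Fin n)) ∈ D → d = b ∨ d = c := by
    intro a b c d hbc h3 h4 h5
    obtain ⟨p, q, -, hpq⟩ := hN a
    rw [hpq] at h3 h4 h5
    rcases h3 with rfl | rfl <;> rcases h4 with rfl | rfl <;> rcases h5 with rfl | rfl <;>
      simp_all
  have hS : (Finset.range j).image v = Finset.univ := by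
    refine hconn _ ?_ ?_
    · rw [Finset.mem_image]
      exact ⟨0, Finset.mem_range.2 (by omega), hv0⟩
    · intro a haS b hab
      rw [Finset.mem_image] at haS ⊢
      obtain ⟨i, hi, rfl⟩ := haS
      rw [Finset.mem_range] at hi
      rcases Nat.eq_zero_or_pos i with h | h
      · subst h
        have h3 : ({v 0, v (j - 1)} : Finset (Fin n)) ∈ D := by
          have h4 := ha (j - 1)
          rw [show j - 1 + 1 = j by omega, hj0, Finset.pair_comm] at h4
          exact h4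
        have h4 : v 1 ≠ v (j - 1) := by
          intro h5
          have h6 := hinj 1 (j - 1) (by omega) (by omega) h5
          omega
        rcases htwo _ _ _ _ h4 (ha 0) h3 hab with h5 | h5
        · exact ⟨1, Finset.mem_range.2 (by omega), h5.symm⟩
        · exact ⟨j - 1, Finset.mem_range.2 (by omega), h5.symm⟩
      · obtain ⟨i', rfl⟩ : ∃ i', i = i' + 1 := ⟨i - 1, by omega⟩
        rcases hc i' b hab with h5 | h5
        · exact ⟨i', Finset.mem_range.2 (by omega), h5.symm⟩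
        · rcases Nat.lt_or_ge (i' + 2) j with h6 | h6
          · exact ⟨i' + 2, Finset.mem_range.2 h6, h5.symm⟩
          · have h7 : i' + 2 = j := by omega
            refine ⟨0, Finset.mem_range.2 (by omega), ?_⟩
            rw [h5, h7, hj0]
  have hjn : j = n := by
    have h3 : ((Finset.range j).image v).card = j := by
      rw [Finset.card_image_of_injOn, Finset.card_range]
      intro a h4 b h5 h6
      exact hinj a b (Finset.mem_range.1 (Finset.mem_coe.1 h4))
        (Finset.mem_range.1 (Finset.mem_coe.1 h5)) h6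
    rw [hS, Finset.card_univ, Fintype.card_fin] at h3
    exact h3.symm
  subst hjn
  have hcinj : Function.Injective (fun i : Fin j => v i) := by
    intro a b h
    exact Fin.ext (hinj a b a.isLt b.isLt h)
  obtain ⟨c, hcv⟩ : ∃ c : Equiv.Perm (Fin j), ∀ i, c i = v i :=
    ⟨Equiv.ofBijective _ (Finite.injective_iff_bijective.1 hcinj), fun i => rfl⟩
  have hrot : ∀ i : Fin j, v (finRotate j i) = v (i + 1 : ℕ) := by
    intro i
    obtain ⟨m, hm⟩ : ∃ m, j = m + 1 := ⟨j - 1, by omega⟩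
    subst hm
    rw [finRotate_apply, Fin.val_add, Fin.val_one', Nat.add_mod_mod]
    have hi := i.isLt
    rcases Nat.lt_or_ge (i.val + 1) (m + 1) with h | h
    · rw [Nat.mod_eq_of_lt h]
    · have h3 : i.val + 1 = m + 1 := by omega
      rw [h3, Nat.mod_self, hj0]
  have hr : ∀ i, (c * finRotate j * c⁻¹) (c i) = v (i + 1 : ℕ) := by
    intro i
    rw [Equiv.Perm.mul_apply, Equiv.Perm.mul_apply,
      show c⁻¹ (c i) = i from c.symm_apply_apply i, hcv, hrot]
  obtain ⟨-, -, -, hr2⟩ := rot_facts hn c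
  have h1 : ∀ a, ({a, (c * finRotate j * c⁻¹) a} : Finset (Fin j)) ∈ D := by
    intro a
    obtain ⟨i, rfl⟩ := c.surjective a
    rw [hr, hcv]
    exact ha i
  refine dih_of_label hn c G D h1 ?_ hinv
  intro a b hab
  obtain ⟨a', rfl⟩ := (c * finRotate j * c⁻¹).surjective a
  have h3 : ({(c * finRotate j * c⁻¹) a', a'} : Finset (Fin j)) ∈ D := by
    rw [Finset.pair_comm]
    exact h1 a'
  rcases htwo _ _ _ _ (hr2 a') (h1 _) h3 hab with h5 | h5
  · left
    exact h5
  · right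
    rw [h5]

end Pool.Agent.Lib.HyS
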