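import Pool.Agent.Lib.HyN.OddDih
import Pool.Agent.Lib.HyS.Loc

/-!
# HyN: abelian groups of odd order inverted by an element with a fixed point

The proof of `no_invariant_of_odd` on the face of the points whose coordinates outside an orbit are
zero.  So if there is an invariant lattice triangulation of the second hypersimplex, every abelian
subgroup of odd order which is inverted by an element with a fixed point is cyclic.
-/

namespace Pool.Agent.Lib.HyS

private theorem inv_zero {k n : ℕ} {T : LatticeTriangulation k n}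
    {F : Finset (Finset (Fin n))} {p : Fin n → ℝ} (hF : IsCarrier T F p) (i : Fin n)
    (hi : p i = 0) : ∀ I ∈ F, i ∉ I := by
  intro I hI hiI
  obtain ⟨w, hw, -, hwp⟩ := hF.wt
  have h1 : ∑ J ∈ F, w J * ind J i = 0 := by
    rw [← hi, ← hwp, Finset.sum_apply]
    rfl
  have h2 := (Finset.sum_eq_zero_iff_of_nonneg (fun J hJ => mul_nonneg (hw J hJ).le
    (by unfold ind; split_ifs <;> norm_num))).1 h1 I hI
  rw [show ind I i = 1 from if_pos hiI, mul_one] at h2
  exact (hw I hI).ne' h2

private theorem inv_card {k n : ℕ} (hk : 0 < k) {T : LatticeTriangulation k n}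
    {F : Finset (Finset (Fin n))} {p : Fin n → ℝ} (hF : IsCarrier T F p) (S : Finset (Fin n))
    (hS : ∀ I ∈ F, I ⊆ S) : F.card ≤ S.card := by
  classical
  have hlin := face_lin hk T hF.card hF.face
  have hlin2 : LinearIndependent ℝ (fun I : F =>
      LinearMap.funLeft ℝ ℝ (Subtype.val : S → Fin n) (ind (I : Finset (Fin n)))) := by
    rw [Fintype.linearIndependent_iff] at hlin ⊢
    intro g hg
    apply hlin g
    funext i
    rw [Finset.sum_apply, Pi.zero_apply]
    by_cases hi : i ∈ S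
    · have h1 := congrFun hg ⟨i, hi⟩
      rw [Finset.sum_apply, Pi.zero_apply] at h1
      rw [← h1]
      rfl
    · refine Finset.sum_eq_zero fun I _ => ?_
      have h2 : i ∉ (I : Finset (Fin n)) := fun h => hi (hS I.1 I.2 h)
      simp [ind, h2]
  have h := hlin2.fintype_card_le_finrank
  rw [Fintype.card_coe, Module.finrank_fintype_fun_eq_card, Fintype.card_coe] at h
  exact h

private theorem inv_map_pair {n : ℕ} (σ : Equiv.Perm (Fin n)) (x y : Fin n) :
    ({x, y} : Finset (Fin n)).map σ.toEmbedding = {σ x, σ y} := by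
  rw [Finset.map_insert, Finset.map_singleton]
  rfl

/-- The carrier of the centre of the face of the points whose coordinates outside `U` are zero. -/
theorem face_centre {n : ℕ} (T : LatticeTriangulation 2 n) {G : Subgroup (Equiv.Perm (Fin n))}
    (hT : Invariant G T) (U : Finset (Fin n)) (hU : 2 ≤ U.card) :
    ∃ (D : Finset (Finset (Fin n))) (c : Fin n → ℝ), IsCarrier T D c ∧ D.Nonempty ∧
      (∀ I ∈ D, I ⊆ U) ∧ D.card ≤ U.card ∧
      ∀ σ ∈ G, (∀ i ∈ U, σ i ∈ U) → ∀ I ∈ D, I.map σ.toEmbedding ∈ D := by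
  classical
  have hN : (0 : ℝ) < (U.card : ℝ) := by
    have : 0 < U.card := by omega
    exact_mod_cast this
  have hN2 : (2 : ℝ) ≤ (U.card : ℝ) := by exact_mod_cast hU
  obtain ⟨c, hc⟩ : ∃ c : Fin n → ℝ, ∀ i, c i = if i ∈ U then 2 / (U.card : ℝ) else 0 :=
    ⟨fun i => if i ∈ U then 2 / (U.card : ℝ) else 0, fun i => rfl⟩
  have hcm : c ∈ hypersimplex 2 n := by
    refine ⟨fun i => ?_, ?_⟩
    · rw [hc]
      split_ifs
      · refine ⟨by positivity, ?_⟩
        rw [div_le_one hN]
        exact hN2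
      · norm_num
    · simp only [hc]
      rw [Finset.sum_ite_mem, Finset.univ_inter, Finset.sum_const, nsmul_eq_mul]
      field_simp
      norm_num
  obtain ⟨D, hD⟩ := car_exists T hcm
  have hDU : ∀ I ∈ D, I ⊆ U := by
    intro I hI i hi
    by_contra hcon
    exact inv_zero hD i (by rw [hc, if_neg hcon]) I hI hi
  refine ⟨D, c, hD, ?_, hDU, inv_card (by omega) hD U hDU, ?_⟩
  · obtain ⟨w, -, hw1, -⟩ := hD.wt
    rw [Finset.nonempty_iff_ne_empty]
    rintro rfl
    rw [Finset.sum_empty] at hw1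
    exact zero_ne_one hw1
  · intro σ hσ hσU
    refine car_inv (by omega) T hT hD hσ ?_
    have hmap : U.map σ.toEmbedding = U := by
      refine Finset.eq_of_subset_of_card_le ?_ (by rw [Finset.card_map])
      intro i hi
      obtain ⟨j, hj, rfl⟩ := Finset.mem_map.1 hi
      exact hσU j hj
    funext i
    show c (σ.symm i) = c i
    rw [hc, hc]
    have h1 : σ.symm i ∈ U ↔ i ∈ U := by
      conv_rhs => rw [← hmap]
      rw [Finset.mem_map_equiv]
    simp only [h1]

theorem no_invariant_sub {n : ℕ} {V : Type} [AddCommGroup V] [Finite V]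
    (hodd : ∀ v : V, v + v = 0 → v = 0) (hcyc : ¬ IsAddCyclic V) (ρ : V → Fin n)
    (hρ : Function.Injective ρ) (G : Subgroup (Equiv.Perm (Fin n)))
    (hadd : ∀ b : V, ∃ σ ∈ G, ∀ v, σ (ρ v) = ρ (b + v))
    (hsub : ∀ b : V, ∃ σ ∈ G, ∀ v, σ (ρ v) = ρ (b - v))
    (T : LatticeTriangulation 2 n) (hT : Invariant G T) : False := by
  classical
  haveI : Fintype V := Fintype.ofFinite V
  obtain ⟨U, hUdef⟩ : ∃ U : Finset (Fin n), U = Finset.univ.image ρ := ⟨_, rfl⟩
  have hU : ∀ i, i ∈ U ↔ ∃ v, ρ v = i := by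
    intro i
    rw [hUdef, Finset.mem_image]
    simp
  have hUcard : U.card = Fintype.card V := by
    rw [hUdef, Finset.card_image_of_injective _ hρ, Finset.card_univ]
  have hV2 : 2 ≤ U.card := by
    rw [hUcard]
    by_contra hcon
    apply hcyc
    haveI : Subsingleton V := by
      rw [← Fintype.card_le_one_iff_subsingleton]
      omega
    infer_instance
  obtain ⟨D, c, hD, ⟨B₀, hB₀⟩, hDU, hle, hinv⟩ := face_centre T hT U hV2
  obtain ⟨x₀, y₀, hxy, hB₀e⟩ := Finset.card_eq_two.1 (hD.card B₀ hB₀)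
  obtain ⟨a, ha⟩ := (hU x₀).1 (hDU B₀ hB₀ (by rw [hB₀e]; exact Finset.mem_insert_self _ _))
  obtain ⟨e, he⟩ := (hU y₀).1 (hDU B₀ hB₀ (by
    rw [hB₀e]; exact Finset.mem_insert_of_mem (Finset.mem_singleton_self _)))
  obtain ⟨d, hd⟩ : ∃ d : V, d = e - a := ⟨_, rfl⟩
  have hd0 : d ≠ 0 := by
    intro h
    rw [h] at hd
    apply hxy
    rw [← ha, ← he, sub_eq_zero.1 hd.symm]
  have h2d : d + d ≠ 0 := fun h => hd0 (hodd d h)
  obtain ⟨E, hE⟩ : ∃ E : V → Finset (Fin n), ∀ v, E v = {ρ v, ρ (d + v)} :=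
    ⟨fun v => {ρ v, ρ (d + v)}, fun v => rfl⟩
  have hED : ∀ v, E v ∈ D := by
    intro v
    obtain ⟨σ, hσ, hσv⟩ := hadd (v - a)
    have h1 := hinv σ hσ (by
      intro i hi
      obtain ⟨u, rfl⟩ := (hU i).1 hi
      rw [hσv, hU]
      exact ⟨_, rfl⟩) B₀ hB₀
    rw [hB₀e, inv_map_pair, ← ha, ← he, hσv, hσv] at h1
    rw [hE]
    rwa [show v - a + a = v by abel, show v - a + e = d + v by rw [hd]; abel] at h1
  have hEinj : Function.Injective E := by
    intro v w h
    rw [hE, hE] at h
    have h4 : ρ v ∈ ({ρ w, ρ (d + w)} : Finset (Fin n)) := by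
      rw [← h]
      exact Finset.mem_insert_self _ _
    have h5 : ρ (d + v) ∈ ({ρ w, ρ (d + w)} : Finset (Fin n)) := by
      rw [← h]
      exact Finset.mem_insert_of_mem (Finset.mem_singleton_self _)
    rw [Finset.mem_insert, Finset.mem_singleton] at h4 h5
    rcases h4 with h4 | h4
    · exact hρ h4
    · rcases h5 with h5 | h5
      · exfalso
        have h6 := hρ h4
        have h7 := hρ h5
        rw [h6, ← add_assoc] at h7
        exact h2d (by simpa using h7)
      · exact add_left_cancel (hρ h5)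
  -- the points outside the subgroup of `d`
  obtain ⟨W, hW⟩ : ∃ W : Finset V, ∀ v, v ∈ W ↔ v ∉ AddSubgroup.zmultiples d :=
    ⟨Finset.univ.filter fun v => v ∉ AddSubgroup.zmultiples d, fun v => by simp⟩
  have hWne : W.Nonempty := by
    by_contra hcon
    rw [Finset.not_nonempty_iff_eq_empty] at hcon
    apply hcyc
    refine ⟨d, fun v => ?_⟩
    by_contra hv
    have h4 := (hW v).2 hv
    rw [hcon] at h4
    exact absurd h4 (Finset.notMem_empty _)
  have hdz : d ∈ AddSubgroup.zmultiples d := AddSubgroup.mem_zmultiples d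
  have hdW : ∀ v ∈ W, d + v ∈ W := by
    intro v hv
    rw [hW] at hv ⊢
    exact fun h => hv ((add_mem_cancel_left hdz).1 h)
  obtain ⟨S, hS⟩ : ∃ S : Finset (Fin n), S = W.image ρ := ⟨_, rfl⟩
  obtain ⟨L, hL⟩ : ∃ L : Finset (Finset (Fin n)), L = W.image E := ⟨_, rfl⟩
  have hxS : ρ 0 ∉ S := by
    rw [hS, Finset.mem_image]
    rintro ⟨v, hv, hv0⟩
    rw [hρ hv0, hW] at hv
    exact hv (zero_mem _)
  have hLS : ∀ I ∈ L, I ⊆ S := by
    intro I hI
    rw [hL] at hI
    obtain ⟨v, hv, rfl⟩ := Finset.mem_image.1 hI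
    intro j hj
    rw [hE, Finset.mem_insert, Finset.mem_singleton] at hj
    rw [hS, Finset.mem_image]
    rcases hj with rfl | rfl
    · exact ⟨v, hv, rfl⟩
    · exact ⟨d + v, hdW v hv, rfl⟩
  obtain ⟨z, hzS, hz⟩ := ray_lemma T hT hD L (by rw [hL]; exact hWne.image _) (by
      intro I hI
      rw [hL] at hI
      obtain ⟨v, -, rfl⟩ := Finset.mem_image.1 hI
      exact hED v) S (ρ 0) hxS hLS (by
      rw [hS, hL, Finset.card_image_of_injective _ hρ, Finset.card_image_of_injective _ hEinj])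
  obtain ⟨r, hrG, hr⟩ := hsub 0
  have hrx : r (ρ 0) = ρ 0 := by rw [hr, sub_zero]
  have hrz := hz r hrG hrx (by
    intro I hI
    rw [hL] at hI ⊢
    obtain ⟨v, hv, rfl⟩ := Finset.mem_image.1 hI
    rw [Finset.mem_image]
    refine ⟨-(d + v), ?_, ?_⟩
    · rw [hW]
      intro h
      exact (hW _).1 (hdW v hv) (neg_mem_iff.1 h)
    · rw [hE, hE, inv_map_pair, hr, hr, show (0 : V) - v = d + -(d + v) by abel,
        show (0 : V) - (d + v) = -(d + v) by abel, Finset.pair_comm])
  rw [hS] at hzS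
  obtain ⟨v, hv, rfl⟩ := Finset.mem_image.1 hzS
  rw [hr] at hrz
  have h1 := hρ hrz
  rw [zero_sub] at h1
  have h2 : v + v = 0 := by
    nth_rewrite 1 [← h1]
    exact neg_add_cancel v
  rw [hodd v h2, hW] at hv
  exact hv (zero_mem _)

/-- **Theorem.** If the second hypersimplex, or its dual, has a lattice triangulation which is
invariant under `G`, then every abelian subgroup of odd order of `G` which is inverted by an element
of `G` with a fixed point is cyclic. -/
theorem inverted_cyclic {k n : ℕ} (hk : k = 2 ∨ k + 2 = n) (G : Subgroup (Equiv.Perm (Fin n)))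
    (hG : ∃ T : LatticeTriangulation k n, Invariant G T) (t : Equiv.Perm (Fin n)) (ht : t ∈ G)
    (x : Fin n) (htx : t x = x) (A : Subgroup (Equiv.Perm (Fin n))) (hA : A ≤ G)
    (hcomm : ∀ a ∈ A, ∀ b ∈ A, a * b = b * a) (hodd : Odd (Nat.card A))
    (hinv : ∀ a ∈ A, t * a * t⁻¹ = a⁻¹) : IsCyclic A := by
  have hG2 : ∃ T : LatticeTriangulation 2 n, Invariant G T := by
    obtain ⟨T, hT⟩ := hG
    rcases hk with rfl | hk
    · exact ⟨T, hT⟩
    · have h := exists_dual (by omega : k ≤ n) T hT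
      rwa [show n - k = 2 by omega] at h
  obtain ⟨T, hT⟩ := hG2
  by_contra hcyc
  have hsmall : ∀ σ ∈ G, σ x = x → ∀ y, σ (σ y) = y := by
    intro σ hσ hσx y
    by_cases hy : y = x
    · rw [hy, hσx, hσx]
    · have h := local_low T hT ∅ (by simp) x y (by simp) (by simp) hy σ (σ * σ) hσ
        (G.mul_mem hσ hσ) hσx (by rw [Equiv.Perm.mul_apply, hσx, hσx]) (by simp) (by simp)
      rw [Equiv.Perm.mul_apply] at h
      rcases h with h | h | h
      · rw [h, h]
      · exact h
      · have h2 : σ y = y := (σ.injective h).symm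
        rw [h2, h2]
  have hone : ∀ a ∈ A, a * a = 1 → a = 1 := by
    intro a ha h
    have h1 : orderOf a ∣ 2 := orderOf_dvd_of_pow_eq_one (by rw [pow_two, h])
    have h2 : orderOf a ∣ Nat.card A := by
      have h4 := orderOf_dvd_natCard (⟨a, ha⟩ : A)
      rwa [Subgroup.orderOf_mk] at h4
    rcases (Nat.dvd_prime Nat.prime_two).1 h1 with h3 | h3
    · exact orderOf_eq_one_iff.1 h3
    · rw [h3] at h2
      exact absurd hodd (by rw [Nat.not_odd_iff_even]; exact even_iff_two_dvd.2 h2)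
  letI : CommGroup A := { (inferInstance : Group A) with
    mul_comm := fun a b => Subtype.ext (hcomm a a.2 b b.2) }
  refine no_invariant_sub (V := Additive A) ?_ ?_ (fun a => (a.toMul : Equiv.Perm (Fin n)) x) ?_
    G ?_ ?_ T hT
  · intro v hv
    have h1 : (v.toMul : A) * v.toMul = 1 := hv
    have h2 := hone (v.toMul : A) (v.toMul : A).2 (congrArg Subtype.val h1)
    exact Subtype.ext h2
  · rw [isAddCyclic_additive_iff]
    exact hcyc
  · intro a b hab
    have hab' : ((a.toMul : A) : Equiv.Perm (Fin n)) x = ((b.toMul : A) : Equiv.Perm (Fin n)) x := hab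
    have h1 : ((((b.toMul : A))⁻¹ * (a.toMul : A) : A) : Equiv.Perm (Fin n)) x = x := by
      rw [Subgroup.coe_mul, Subgroup.coe_inv, Equiv.Perm.mul_apply, hab']
      exact Equiv.symm_apply_apply _ _
    have h2 : ((((b.toMul : A))⁻¹ * (a.toMul : A) : A) : Equiv.Perm (Fin n)) = 1 := by
      apply hone _ (Subtype.mem _)
      ext y
      rw [Equiv.Perm.mul_apply, hsmall _ (hA (Subtype.mem _)) h1]
      rfl
    have h3 : ((b.toMul : A))⁻¹ * (a.toMul : A) = 1 := Subtype.ext h2
    exact (inv_mul_eq_one.1 h3).symm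
  · intro b
    exact ⟨((b.toMul : A) : Equiv.Perm (Fin n)), hA (Subtype.mem _), fun v => rfl⟩
  · intro b
    refine ⟨((b.toMul : A) : Equiv.Perm (Fin n)) * t, G.mul_mem (hA (Subtype.mem _)) ht, fun v => ?_⟩
    have h1 := hinv ((v.toMul : A) : Equiv.Perm (Fin n)) (Subtype.mem _)
    have h2 : t (((v.toMul : A) : Equiv.Perm (Fin n)) x) =
        (((v.toMul : A) : Equiv.Perm (Fin n)))⁻¹ x := by
      rw [← h1, Equiv.Perm.mul_apply, Equiv.Perm.mul_apply]
      have h3 : t⁻¹ x = x := by
        conv_lhs => rw [← htx]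
        exact Equiv.symm_apply_apply _ _
      rw [h3]
    show (((b.toMul : A) : Equiv.Perm (Fin n)) * t) (((v.toMul : A) : Equiv.Perm (Fin n)) x) = _
    rw [Equiv.Perm.mul_apply, h2]
    show _ = ((((b - v : Additive A)).toMul : A) : Equiv.Perm (Fin n)) x
    rw [toMul_sub, div_eq_mul_inv]
    rfl

end Pool.Agent.Lib.HyS
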