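import Pool.Agent.Lib.HyS.TwoTr
import Pool.Agent.Lib.HyS.Dual
import Pool.Agent.Lib.HyN.Cross2

/-!
# HyN: the condition on the point stabilisers is not sufficient

Let `V` be an elementary abelian 3-group of rank at least two, and let the group consist of all maps
`v ↦ b + v` and `v ↦ b - v`.  There is no invariant lattice triangulation of the second hypersimplex:
the carrier `D` of the centre is invariant and has at most `n` members, so `D` consists of all edges
`{i, s i}`, `s` a translation (of order three).  Let `m` be a point and `B = {s m, s (s m)}`.  If one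
crosses the facet opposite `B` one finds an edge `C` which is fixed by the reflection in `m`.  As `C`
is not `B`, it does not meet `{m, s m, s (s m)}`, so `C` and all members of `D` but `B` are in the
hyperplane `w m = w (s m) + w (s (s m))`, a contradiction.
-/

namespace Pool.Agent.Lib.HyS

/-- The permutations which are of the form `v ↦ b + v` or `v ↦ b - v`, for the labelling `ρ` of the
indices by the elements of an abelian group. -/
def generalizedDihedral {n : ℕ} {V : Type} [AddCommGroup V] (ρ : Fin n ≃ V) :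
    Subgroup (Equiv.Perm (Fin n)) where
  carrier := {σ | ∃ b : V, (∀ i, ρ (σ i) = b + ρ i) ∨ ∀ i, ρ (σ i) = b - ρ i}
  mul_mem' := by
    rintro σ τ ⟨b, hb⟩ ⟨c, hc⟩
    rcases hb with hb | hb <;> rcases hc with hc | hc
    · exact ⟨b + c, Or.inl fun i => by rw [Equiv.Perm.mul_apply, hb, hc]; abel⟩
    · exact ⟨b + c, Or.inr fun i => by rw [Equiv.Perm.mul_apply, hb, hc]; abel⟩
    · exact ⟨b - c, Or.inr fun i => by rw [Equiv.Perm.mul_apply, hb, hc]; abel⟩
    · exact ⟨b - c, Or.inl fun i => by rw [Equiv.Perm.mul_apply, hb, hc]; abel⟩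
  one_mem' := ⟨0, Or.inl fun i => by simp⟩
  inv_mem' := by
    rintro σ ⟨b, hb⟩
    rcases hb with hb | hb
    · refine ⟨-b, Or.inl fun i => ?_⟩
      have h := hb (σ⁻¹ i)
      rw [show σ (σ⁻¹ i) = i from σ.apply_symm_apply i] at h
      rw [h]
      abel
    · refine ⟨b, Or.inr fun i => ?_⟩
      have h := hb (σ⁻¹ i)
      rw [show σ (σ⁻¹ i) = i from σ.apply_symm_apply i] at h
      rw [h]
      abel

theorem gd_small {n : ℕ} {V : Type} [AddCommGroup V] (ρ : Fin n ≃ V) :
    ∀ x y : Fin n, ∀ σ ∈ generalizedDihedral ρ, ∀ τ ∈ generalizedDihedral ρ, σ x = x → τ x = x →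
      (σ y = y ∨ τ y = y ∨ σ y = τ y) := by
  rintro x y σ ⟨b, hb⟩ τ ⟨c, hc⟩ hσ hτ
  rcases hb with hb | hb
  · left
    have h := hb x
    rw [hσ] at h
    have h0 : b = 0 := by simpa using h.symm
    apply ρ.injective
    rw [hb, h0, zero_add]
  · rcases hc with hc | hc
    · right
      left
      have h := hc x
      rw [hτ] at h
      have h0 : c = 0 := by simpa using h.symm
      apply ρ.injective
      rw [hc, h0, zero_add]
    · right
      right
      have h1 := hb x
      have h2 := hc x
      rw [hσ] at h1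
      rw [hτ] at h2
      have h3 : b = c := by
        have h4 : b - ρ x = c - ρ x := by rw [← h1, ← h2]
        exact sub_left_injective h4
      apply ρ.injective
      rw [hb, hc, h3]

/-- The translation by `b`. -/
private def tr {n : ℕ} {V : Type} [AddCommGroup V] (ρ : Fin n ≃ V) (b : V) : Equiv.Perm (Fin n) :=
  (ρ.trans (Equiv.addLeft b)).trans ρ.symm

private theorem tr_apply {n : ℕ} {V : Type} [AddCommGroup V] (ρ : Fin n ≃ V) (b : V) (i : Fin n) :
    ρ (tr ρ b i) = b + ρ i := by
  simp [tr]

private theorem tr_mem {n : ℕ} {V : Type} [AddCommGroup V] (ρ : Fin n ≃ V) (b : V) :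
    tr ρ b ∈ generalizedDihedral ρ := ⟨b, Or.inl (tr_apply ρ b)⟩

/-- The map `v ↦ b - v`. -/
private def rf {n : ℕ} {V : Type} [AddCommGroup V] (ρ : Fin n ≃ V) (b : V) : Equiv.Perm (Fin n) :=
  (ρ.trans (Equiv.subLeft b)).trans ρ.symm

private theorem rf_apply {n : ℕ} {V : Type} [AddCommGroup V] (ρ : Fin n ≃ V) (b : V) (i : Fin n) :
    ρ (rf ρ b i) = b - ρ i := by
  simp [rf]

private theorem rf_mem {n : ℕ} {V : Type} [AddCommGroup V] (ρ : Fin n ≃ V) (b : V) :
    rf ρ b ∈ generalizedDihedral ρ := ⟨b, Or.inr (rf_apply ρ b)⟩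

private theorem map_pair {n : ℕ} (σ : Equiv.Perm (Fin n)) (x y : Fin n) :
    ({x, y} : Finset (Fin n)).map σ.toEmbedding = {σ x, σ y} := by
  rw [Finset.map_insert, Finset.map_singleton]
  rfl

theorem no_invariant_of_exponent_three {n : ℕ} (hn : 9 ≤ n) {V : Type} [AddCommGroup V]
    (h3 : ∀ v : V, v + v + v = 0) (ρ : Fin n ≃ V) (T : LatticeTriangulation 2 n)
    (hT : Invariant (generalizedDihedral ρ) T) : False := by
  classical
  obtain ⟨D, hD, ⟨B₀, hB₀⟩, hle, hinv⟩ :=
    centre_carrier (by omega : 0 < 2) (by omega : 2 < n) T hT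
  obtain ⟨x, y, hxy, rfl⟩ := Finset.card_eq_two.1 (hD.card B₀ hB₀)
  obtain ⟨d, hd⟩ : ∃ d : V, d = ρ y - ρ x := ⟨_, rfl⟩
  have hd0 : d ≠ 0 := by
    intro h
    rw [h] at hd
    exact hxy (ρ.injective (sub_eq_zero.1 hd.symm)).symm
  have h2d : d + d ≠ 0 := by
    intro h
    have h4 := h3 d
    rw [h, zero_add] at h4
    exact hd0 h4
  obtain ⟨s, hs⟩ : ∃ s : Equiv.Perm (Fin n), s = tr ρ d := ⟨_, rfl⟩
  have hsρ : ∀ i, ρ (s i) = d + ρ i := fun i => by rw [hs]; exact tr_apply ρ d i
  have hs1 : ∀ i, s i ≠ i := by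
    intro i h
    have h4 := hsρ i
    rw [h] at h4
    apply hd0
    simpa using h4.symm
  have hs2 : ∀ i, s (s i) ≠ i := by
    intro i h
    have h4 := hsρ (s i)
    rw [h, hsρ i, ← add_assoc] at h4
    apply h2d
    simpa using h4.symm
  have hs3 : ∀ i, s (s (s i)) = i := by
    intro i
    apply ρ.injective
    rw [hsρ, hsρ, hsρ, ← add_assoc, ← add_assoc, h3 d, zero_add]
  -- the carrier of the centre
  have hED : ∀ i, ({i, s i} : Finset (Fin n)) ∈ D := by
    intro i
    have h4 := hinv (tr ρ (ρ i - ρ x)) (tr_mem ρ _) _ hB₀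
    rw [map_pair] at h4
    have h5 : tr ρ (ρ i - ρ x) x = i := by
      apply ρ.injective
      rw [tr_apply]
      abel
    have h6 : tr ρ (ρ i - ρ x) y = s i := by
      apply ρ.injective
      rw [tr_apply, hsρ, hd]
      abel
    rwa [h5, h6] at h4
  have hEinj : Function.Injective (fun i : Fin n => ({i, s i} : Finset (Fin n))) := by
    intro i j h
    have h4 : i ∈ ({j, s j} : Finset (Fin n)) := by
      rw [← show ({i, s i} : Finset (Fin n)) = {j, s j} from h]
      exact Finset.mem_insert_self _ _
    have h5 : s i ∈ ({j, s j} : Finset (Fin n)) := by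
      rw [← show ({i, s i} : Finset (Fin n)) = {j, s j} from h]
      exact Finset.mem_insert_of_mem (Finset.mem_singleton_self _)
    rw [Finset.mem_insert, Finset.mem_singleton] at h4 h5
    rcases h4 with h4 | h4
    · exact h4
    · rcases h5 with h5 | h5
      · exfalso
        rw [h4] at h5
        exact hs2 j h5
      · exact s.injective h5
  have himg : Finset.univ.image (fun i : Fin n => ({i, s i} : Finset (Fin n))) = D := by
    refine Finset.eq_of_subset_of_card_le ?_ ?_
    · intro I hI
      obtain ⟨i, -, rfl⟩ := Finset.mem_image.1 hI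
      exact hED i
    · rw [Finset.card_image_of_injective _ hEinj, Finset.card_univ, Fintype.card_fin]
      exact hle
  have hDn : D.card = n := by
    rw [← himg, Finset.card_image_of_injective _ hEinj, Finset.card_univ, Fintype.card_fin]
  have hDE : ∀ I ∈ D, ∃ i, I = {i, s i} := by
    intro I hI
    rw [← himg] at hI
    obtain ⟨i, -, rfl⟩ := Finset.mem_image.1 hI
    exact ⟨i, rfl⟩
  -- the point and the edge
  obtain ⟨m, -⟩ : ∃ m : Fin n, True := ⟨⟨0, by omega⟩, trivial⟩
  obtain ⟨B, hBdef⟩ : ∃ B : Finset (Fin n), B = {s m, s (s m)} := ⟨_, rfl⟩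
  have hB : B ∈ D := by rw [hBdef]; exact hED (s m)
  have hmB : m ∉ B := by
    rw [hBdef, Finset.mem_insert, Finset.mem_singleton, not_or]
    exact ⟨fun h => hs1 m h.symm, fun h => hs2 m h.symm⟩
  have hEm : ({m, s m} : Finset (Fin n)) ≠ B := by
    intro h
    exact hmB (h ▸ Finset.mem_insert_self _ _)
  have hin : ∀ i, ∃ I ∈ D, I ≠ B ∧ i ∈ I := by
    intro i
    by_cases hi : i = s m
    · refine ⟨{m, s m}, hED m, hEm, ?_⟩
      rw [hi]
      exact Finset.mem_insert_of_mem (Finset.mem_singleton_self _)
    · refine ⟨{i, s i}, hED i, ?_, Finset.mem_insert_self _ _⟩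
      intro h
      apply hi
      apply hEinj
      show ({i, s i} : Finset (Fin n)) = {s m, s (s m)}
      rw [h, hBdef]
  have hcos : ∃ t : Fin n, t ≠ m ∧ t ≠ s m ∧ t ≠ s (s m) := by
    by_contra hcon
    push Not at hcon
    have h4 : (Finset.univ : Finset (Fin n)) ⊆ {m, s m, s (s m)} := by
      intro t _
      rw [Finset.mem_insert, Finset.mem_insert, Finset.mem_singleton]
      by_cases ha : t = m
      · exact Or.inl ha
      · by_cases hb : t = s m
        · exact Or.inr (Or.inl hb)
        · exact Or.inr (Or.inr (hcon t ha hb))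
    have h5 := Finset.card_le_card h4
    rw [Finset.card_univ, Fintype.card_fin] at h5
    have h6 := Finset.card_le_three (a := m) (b := s m) (c := s (s m))
    omega
  have hcl : ∀ t : Fin n, t ≠ m → t ≠ s m → t ≠ s (s m) →
      s t ≠ m ∧ s t ≠ s m ∧ s t ≠ s (s m) := by
    intro t h0 h1 h2
    refine ⟨?_, fun h => h0 (s.injective h), fun h => h1 (s.injective h)⟩
    intro h
    apply h2
    rw [← h]
    exact (hs3 t).symm
  have hout : ∀ i, ∃ I ∈ D, I ≠ B ∧ i ∉ I := by
    intro i
    by_cases hi : i ∈ ({m, s m} : Finset (Fin n))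
    · obtain ⟨t, h0, h1, h2⟩ := hcos
      obtain ⟨h0', h1', h2'⟩ := hcl t h0 h1 h2
      refine ⟨{t, s t}, hED t, ?_, ?_⟩
      · intro h
        have h4 : t ∈ B := h ▸ Finset.mem_insert_self _ _
        rw [hBdef, Finset.mem_insert, Finset.mem_singleton] at h4
        rcases h4 with h4 | h4
        · exact h1 h4
        · exact h2 h4
      · intro h
        rw [Finset.mem_insert, Finset.mem_singleton] at hi h
        rcases hi with rfl | rfl <;> rcases h with h | h
        · exact h0 h.symm
        · exact h0' h.symm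
        · exact h1 h.symm
        · exact h1' h.symm
    · exact ⟨{m, s m}, hED m, hEm, hi⟩
  obtain ⟨C, hC2, hCD, hCfix, hFcard, hFface⟩ :=
    cross_face (by omega : 0 < 2) (by omega : 2 ≤ n) T hT hD hDn hinv B hB hin hout
  -- the reflection in `m`
  obtain ⟨r, hr⟩ : ∃ r : Equiv.Perm (Fin n), r = rf ρ (ρ m + ρ m) := ⟨_, rfl⟩
  have hrρ : ∀ i, ρ (r i) = ρ m + ρ m - ρ i := fun i => by rw [hr]; exact rf_apply ρ _ i
  have hrG : r ∈ generalizedDihedral ρ := by rw [hr]; exact rf_mem ρ _
  have hrm : r m = m := by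
    apply ρ.injective
    rw [hrρ]
    abel
  have hrs : r (s m) = s (s m) := by
    apply ρ.injective
    rw [hrρ, hsρ, hsρ, hsρ]
    have h4 : d + d + d = 0 := h3 d
    have h5 : ρ m + ρ m - (d + ρ m) = ρ m - d := by abel
    have h6 : d + (d + ρ m) = ρ m - d + (d + d + d) := by abel
    rw [h5, h6, h4, add_zero]
  have hrss : r (s (s m)) = s m := by
    apply ρ.injective
    rw [hrρ, hsρ, hsρ]
    have h4 : d + d + d = 0 := h3 d
    have h5 : ρ m + ρ m - (d + (d + ρ m)) = d + ρ m - (d + d + d) := by abel
    rw [h5, h4, sub_zero]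
  have hrfix : ∀ i, r i = i → i = m := by
    intro i hi
    have h4 := hrρ i
    rw [hi] at h4
    apply ρ.injective
    have h5 : ρ i + ρ i = ρ m + ρ m := eq_sub_iff_add_eq.1 h4
    have h6 := h3 (ρ i)
    have h7 := h3 (ρ m)
    rw [h5] at h6
    have h8 : ρ m + ρ m + ρ i = ρ m + ρ m + ρ m := by rw [h6, h7]
    exact add_left_cancel h8
  have hrB : B.map r.toEmbedding = B := by
    rw [hBdef, map_pair, hrs, hrss, Finset.pair_comm]
  have hrC := hCfix r hrG hrB
  have hrC' : ∀ i ∈ C, r i ∈ C := by
    intro i hi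
    rw [← hrC]
    exact Finset.mem_map_of_mem r.toEmbedding hi
  have hmC : m ∉ C := by
    intro hm
    obtain ⟨u, v, huv, hC⟩ := Finset.card_eq_two.1 hC2
    have key : ∀ w ∈ C, w ≠ m → False := by
      intro w hw hwm
      have h4 : C = {m, w} := by
        symm
        refine Finset.eq_of_subset_of_card_le ?_ ?_
        · intro z hz
          rw [Finset.mem_insert, Finset.mem_singleton] at hz
          rcases hz with rfl | rfl
          · exact hm
          · exact hw
        · rw [hC2, Finset.card_pair (Ne.symm hwm)]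
      have h5 := hrC' w hw
      rw [h4, Finset.mem_insert, Finset.mem_singleton] at h5
      rcases h5 with h5 | h5
      · exact hwm (r.injective (h5.trans hrm.symm))
      · exact hwm (hrfix w h5)
    by_cases hu : u = m
    · refine key v ?_ ?_
      · rw [hC]
        exact Finset.mem_insert_of_mem (Finset.mem_singleton_self _)
      · rw [← hu]
        exact huv.symm
    · refine key u ?_ hu
      rw [hC]
      exact Finset.mem_insert_self _ _
  have hBC : s m ∈ C → s (s m) ∈ C → False := by
    intro h4 h5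
    apply hCD
    have h6 : B = C := by
      rw [hBdef]
      refine Finset.eq_of_subset_of_card_le ?_ ?_
      · intro z hz
        rw [Finset.mem_insert, Finset.mem_singleton] at hz
        rcases hz with rfl | rfl
        · exact h4
        · exact h5
      · rw [hC2, Finset.card_pair (fun h => hs1 (s m) h.symm)]
    rw [← h6]
    exact hB
  have hsC : s m ∉ C := by
    intro h4
    refine hBC h4 ?_
    rw [← hrs]
    exact hrC' _ h4
  have hssC : s (s m) ∉ C := by
    intro h4
    refine hBC ?_ h4
    rw [← hrss]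
    exact hrC' _ h4
  -- the hyperplane
  have hzero : ∀ I ∈ insert C (D.erase B), ind I m - ind I (s m) - ind I (s (s m)) = 0 := by
    intro I hI
    rcases Finset.mem_insert.1 hI with rfl | hI
    · simp [ind, hmC, hsC, hssC]
    · obtain ⟨hIB, hID⟩ := Finset.mem_erase.1 hI
      obtain ⟨i, rfl⟩ := hDE I hID
      by_cases h0 : i = m
      · rw [h0]
        have e1 : m ∈ ({m, s m} : Finset (Fin n)) := Finset.mem_insert_self _ _
        have e2 : s m ∈ ({m, s m} : Finset (Fin n)) :=
          Finset.mem_insert_of_mem (Finset.mem_singleton_self _)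
        have e3 : s (s m) ∉ ({m, s m} : Finset (Fin n)) := by
          rw [Finset.mem_insert, Finset.mem_singleton, not_or]
          exact ⟨hs2 m, hs1 (s m)⟩
        simp only [ind, if_pos e1, if_pos e2, if_neg e3]
        norm_num
      · by_cases h1 : i = s m
        · exfalso
          apply hIB
          rw [h1, hBdef]
        · by_cases h2 : i = s (s m)
          · rw [h2, hs3 m]
            have e1 : m ∈ ({s (s m), m} : Finset (Fin n)) :=
              Finset.mem_insert_of_mem (Finset.mem_singleton_self _)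
            have e2 : s m ∉ ({s (s m), m} : Finset (Fin n)) := by
              rw [Finset.mem_insert, Finset.mem_singleton, not_or]
              exact ⟨fun h => hs1 (s m) h.symm, hs1 m⟩
            have e3 : s (s m) ∈ ({s (s m), m} : Finset (Fin n)) := Finset.mem_insert_self _ _
            simp only [ind, if_pos e1, if_neg e2, if_pos e3]
            norm_num
          · obtain ⟨h0', h1', h2'⟩ := hcl i h0 h1 h2
            have e1 : m ∉ ({i, s i} : Finset (Fin n)) := by
              rw [Finset.mem_insert, Finset.mem_singleton, not_or]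
              exact ⟨Ne.symm h0, Ne.symm h0'⟩
            have e2 : s m ∉ ({i, s i} : Finset (Fin n)) := by
              rw [Finset.mem_insert, Finset.mem_singleton, not_or]
              exact ⟨Ne.symm h1, Ne.symm h1'⟩
            have e3 : s (s m) ∉ ({i, s i} : Finset (Fin n)) := by
              rw [Finset.mem_insert, Finset.mem_singleton, not_or]
              exact ⟨Ne.symm h2, Ne.symm h2'⟩
            simp only [ind, if_neg e1, if_neg e2, if_neg e3]
            norm_num
  have hlin := face_lin (by omega : 0 < 2) T hFcard hFface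
  have hCe : C ∉ D.erase B := fun h => hCD (Finset.mem_of_mem_erase h)
  have hcardF : Fintype.card (insert C (D.erase B) : Finset (Finset (Fin n))) =
      Module.finrank ℝ (Fin n → ℝ) := by
    rw [Fintype.card_coe, Finset.card_insert_of_notMem hCe, Finset.card_erase_of_mem hB, hDn,
      Module.finrank_fin_fun]
    omega
  haveI : Nonempty (insert C (D.erase B) : Finset (Finset (Fin n))) :=
    ⟨⟨C, Finset.mem_insert_self _ _⟩⟩
  have hspan := hlin.span_eq_top_of_card_eq_finrank hcardF
  obtain ⟨f, hf⟩ : ∃ f : (Fin n → ℝ) →ₗ[ℝ] ℝ, ∀ w, f w = w m - w (s m) - w (s (s m)) :=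
    ⟨(LinearMap.proj m : (Fin n → ℝ) →ₗ[ℝ] ℝ) - LinearMap.proj (s m) - LinearMap.proj (s (s m)),
      fun w => rfl⟩
  have hf0 : f = 0 := by
    refine LinearMap.ext_on_range hspan ?_
    intro I
    rw [hf, LinearMap.zero_apply]
    exact hzero I.1 I.2
  have h9 : f (Pi.single m 1) = 1 := by
    rw [hf, Pi.single_eq_same, Pi.single_eq_of_ne (hs1 m), Pi.single_eq_of_ne (hs2 m)]
    norm_num
  rw [hf0, LinearMap.zero_apply] at h9
  exact zero_ne_one h9

/-- No group which contains all maps `v ↦ b + v` and `v ↦ b - v` of an elementary abelian 3-group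
with at least nine elements leaves a lattice triangulation of the second hypersimplex, or of its
dual, invariant. -/
theorem no_triangulation {k n : ℕ} (hn : 9 ≤ n) (hk : k = 2 ∨ k + 2 = n) {V : Type}
    [AddCommGroup V] (h3 : ∀ v : V, v + v + v = 0) (ρ : Fin n ≃ V)
    (G : Subgroup (Equiv.Perm (Fin n))) (hG : generalizedDihedral ρ ≤ G) :
    ¬ ∃ T : LatticeTriangulation k n, Invariant G T := by
  rintro ⟨T, hT⟩
  have h2 : ∃ T : LatticeTriangulation 2 n, Invariant G T := by
    rcases hk with rfl | hk
    · exact ⟨T, hT⟩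
    · have h := exists_dual (by omega : k ≤ n) T hT
      rwa [show n - k = 2 by omega] at h
  obtain ⟨T', hT'⟩ := h2
  exact no_invariant_of_exponent_three hn h3 ρ T' fun σ hσ => hT' σ (hG hσ)

end Pool.Agent.Lib.HyS
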