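import Pool.Agent.Lib.HyN.NotSuff

/-!
# HyN: noncyclic abelian groups of odd order

Let `V` be a noncyclic abelian group of odd order, and let the group consist of all maps `v ↦ b + v`
and `v ↦ b - v`.  There is no invariant lattice triangulation of the second hypersimplex: the
carrier `D` of the centre is invariant and has at most `n` members, so `D` consists of all edges
`{i, s i}`, `s` the translation by some `d`.  Let `x` be a point, let `S` be the set of the points
outside the coset of `d` which contains `x`, and let `L` be the set of the edges in `D` with both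
ends in `S`.  If one goes from the barycentre of `L` towards the point `2 x` one enters a simplex
with the vertices `L` and `{x, z}`, `z` in `S`.  The reflection in `x` fixes the ray, so it fixes
`z`, a contradiction.
-/

namespace Pool.Agent.Lib.HyS

private theorem odh_mem {k n : ℕ} {T : LatticeTriangulation k n} {F : Finset (Finset (Fin n))}
    {p : Fin n → ℝ} (h : IsCarrier T F p) :
    p ∈ convexHull ℝ (ind '' (F : Set (Finset (Fin n)))) := by
  obtain ⟨w, hw, hw1, hwp⟩ := h.wt
  rw [← hwp]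
  exact (convex_convexHull ℝ _).sum_mem (fun I hI => (hw I hI).le) hw1
    (fun I hI => subset_convexHull ℝ _ ⟨I, hI, rfl⟩)

private theorem odh_hyp {k n : ℕ} {T : LatticeTriangulation k n} {F : Finset (Finset (Fin n))}
    {p : Fin n → ℝ} (h : IsCarrier T F p) : p ∈ hypersimplex k n := by
  obtain ⟨s, hs, hset⟩ := h.face
  have h1 := odh_mem h
  rw [← hset] at h1
  rw [← T.space_eq]
  exact T.K.convexHull_subset_space hs h1

private theorem odh_carrier {k n : ℕ} {T : LatticeTriangulation k n} {D : Finset (Finset (Fin n))}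
    {c : Fin n → ℝ} (hD : IsCarrier T D c) (L : Finset (Finset (Fin n))) (hL : L.Nonempty)
    (hLD : L ⊆ D) (he : L.erase ∅ = L) :
    IsCarrier T L (bary L ∅) := by
  classical
  have hc : (0 : ℝ) < (L.card : ℝ) := by exact_mod_cast hL.card_pos
  refine ⟨fun I hI => hD.card I (hLD hI), ?_, ?_⟩
  · obtain ⟨s, hs, hset⟩ := hD.face
    refine ⟨L.image ind, T.K.down_closed hs ?_ (hL.image _), Finset.coe_image⟩
    intro v hv
    obtain ⟨I, hI, rfl⟩ := Finset.mem_image.1 hv
    have h1 : ind I ∈ (s : Set (Fin n → ℝ)) := by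
      rw [hset]
      exact ⟨I, hLD hI, rfl⟩
    exact h1
  · refine ⟨fun _ => (L.card : ℝ)⁻¹, fun _ _ => inv_pos.2 hc, ?_, ?_⟩
    · rw [Finset.sum_const, nsmul_eq_mul, mul_inv_cancel₀ hc.ne']
    · unfold bary
      rw [he, Finset.smul_sum]

private theorem odh_limit {k n : ℕ} (T : LatticeTriangulation k n) (q b : Fin n → ℝ) (δ : ℝ)
    (hδ : 0 < δ) (h : ∀ ε : ℝ, 0 ≤ ε → ε ≤ δ → q + ε • (q - b) ∈ hypersimplex k n) :
    ∃ F : Finset (Finset (Fin n)), q ∈ convexHull ℝ (ind '' (F : Set (Finset (Fin n)))) ∧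
      ∃ ε : ℝ, 0 < ε ∧ IsCarrier T F (q + ε • (q - b)) := by
  classical
  have hpos : ∀ m : ℕ, 0 < δ / ((m : ℝ) + 1) := fun m => div_pos hδ (by positivity)
  have hle : ∀ m : ℕ, δ / ((m : ℝ) + 1) ≤ δ := fun m =>
    div_le_self hδ.le (by linarith [Nat.cast_nonneg (α := ℝ) m])
  have hF : ∀ m : ℕ, ∃ F, IsCarrier T F (q + (δ / ((m : ℝ) + 1)) • (q - b)) := fun m =>
    car_exists T (h _ (hpos m).le (hle m))
  choose F hF using hF
  obtain ⟨F0, hF0⟩ := Finite.exists_infinite_fiber F
  have hinf : {m | F m = F0}.Infinite := Set.infinite_coe_iff.1 hF0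
  have hfreq : ∃ᶠ m in Filter.atTop, F m = F0 := Nat.frequently_atTop_iff_infinite.2 hinf
  have hclosed : IsClosed (convexHull ℝ (ind '' (F0 : Set (Finset (Fin n))))) :=
    (F0.finite_toSet.image ind).isClosed_convexHull ℝ
  have htend : Filter.Tendsto (fun m : ℕ => q + (δ / ((m : ℝ) + 1)) • (q - b)) Filter.atTop
      (nhds q) := by
    have h1 : Filter.Tendsto (fun m : ℕ => δ / ((m : ℝ) + 1)) Filter.atTop (nhds 0) := by
      have h2 := (tendsto_one_div_add_atTop_nhds_zero_nat (𝕜 := ℝ)).const_mul δ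
      rw [mul_zero] at h2
      refine h2.congr fun m => ?_
      rw [mul_one_div]
    have h3 := (h1.smul_const (q - b)).const_add q
    rw [zero_smul, add_zero] at h3
    exact h3
  obtain ⟨m0, hm0⟩ := hinf.nonempty
  refine ⟨F0, ?_, δ / ((m0 : ℝ) + 1), hpos m0, ?_⟩
  · refine hclosed.mem_of_frequently_of_tendsto (hfreq.mono ?_) htend
    intro m hm
    have h4 := hF m
    rw [hm] at h4
    exact odh_mem h4
  · have h4 := hF m0
    rw [show F m0 = F0 from hm0] at h4
    exact h4

private theorem odh_map_pair {n : ℕ} (σ : Equiv.Perm (Fin n)) (x y : Fin n) :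
    ({x, y} : Finset (Fin n)).map σ.toEmbedding = {σ x, σ y} := by
  rw [Finset.map_insert, Finset.map_singleton]
  rfl

/-- the number of the members of a simplex inside a set of points -/
private theorem odh_card {k n : ℕ} (hk : 0 < k) {T : LatticeTriangulation k n}
    {F : Finset (Finset (Fin n))} {p : Fin n → ℝ} (hF : IsCarrier T F p) (S : Finset (Fin n))
    (hS : ∀ I ∈ F, I ⊆ S) : F.card ≤ S.card := by
  classical
  have hlin := face_lin hk T hF.card hF.face
  have hlin2 : LinearIndependent ℝ (fun I : F =>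
      LinearMap.funLeft ℝ ℝ (Subtype.val : S → Fin n) (ind (I : Finset (Fin n)))) := by
    rw [Fintype.linearIndependent_iff] at hlin ⊢
    intro g hg
    apply hlin g
    funext i
    rw [Finset.sum_apply, Pi.zero_apply]
    by_cases hi : i ∈ S
    · have h1 := congrFun hg ⟨i, hi⟩
      rw [Finset.sum_apply, Pi.zero_apply] at h1
      rw [← h1]
      rfl
    · refine Finset.sum_eq_zero fun I _ => ?_
      have h2 : i ∉ (I : Finset (Fin n)) := fun h => hi (hS I.1 I.2 h)
      simp [ind, h2]
  have h := hlin2.fintype_card_le_finrank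
  rw [Fintype.card_coe, Module.finrank_fintype_fun_eq_card, Fintype.card_coe] at h
  exact h

/-- the ray lemma -/
theorem ray_lemma {n : ℕ} (T : LatticeTriangulation 2 n)
    {G : Subgroup (Equiv.Perm (Fin n))} (hT : Invariant G T) {D : Finset (Finset (Fin n))}
    {c : Fin n → ℝ} (hD : IsCarrier T D c) (L : Finset (Finset (Fin n))) (hL : L.Nonempty)
    (hLD : L ⊆ D) (S : Finset (Fin n)) (x : Fin n) (hx : x ∉ S) (hLS : ∀ I ∈ L, I ⊆ S)
    (hcard : S.card ≤ L.card) :
    ∃ z ∈ S, ∀ σ ∈ G, σ x = x → (∀ I ∈ L, I.map σ.toEmbedding ∈ L) → σ z = z := by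
  classical
  have he : L.erase ∅ = L := by
    refine Finset.erase_eq_of_notMem fun h => ?_
    have h1 := hD.card ∅ (hLD h)
    simp at h1
  have hLc := odh_carrier hD L hL hLD he
  obtain ⟨q, hq⟩ : ∃ q : Fin n → ℝ, q = bary L ∅ := ⟨_, rfl⟩
  rw [← hq] at hLc
  obtain ⟨hq01, hqs⟩ := odh_hyp hLc
  obtain ⟨b, hb⟩ : ∃ b : Fin n → ℝ, b = q + q - (2 : ℝ) • Pi.single x 1 := ⟨_, rfl⟩
  have hp : ∀ (ε : ℝ) (i : Fin n), (q + ε • (q - b)) i =
      (1 - ε) * q i + (if i = x then 2 * ε else 0) := by
    intro ε i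
    rw [hb]
    simp only [Pi.add_apply, Pi.smul_apply, Pi.sub_apply, smul_eq_mul]
    by_cases h : i = x
    · subst h
      rw [if_pos rfl, Pi.single_eq_same]
      ring
    · rw [if_neg h, Pi.single_eq_of_ne h]
      ring
  -- the coordinates outside `S`
  have hqS : ∀ i, i ∉ S → q i = 0 := by
    intro i hi
    obtain ⟨w, -, -, hwp⟩ := hLc.wt
    rw [← hwp, Finset.sum_apply]
    refine Finset.sum_eq_zero fun I hI => ?_
    have h2 : i ∉ I := fun h => hi (hLS I hI h)
    simp [ind, h2]
  have hqx : q x = 0 := hqS x hx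
  obtain ⟨F, hqF, ε, hε, hF⟩ := odh_limit T q b (1 / 2) (by norm_num) (by
    intro ε h0 h1
    refine ⟨fun i => ?_, ?_⟩
    · rw [hp]
      obtain ⟨h2, h3⟩ := hq01 i
      by_cases h : i = x
      · rw [if_pos h, h, hqx]
        constructor
        · linarith
        · linarith
      · rw [if_neg h]
        constructor
        · nlinarith
        · nlinarith
    · simp only [hp]
      rw [Finset.sum_add_distrib, ← Finset.mul_sum, hqs, Finset.sum_ite_eq' Finset.univ x,
        if_pos (Finset.mem_univ x)]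
      push_cast
      ring)
  have hsub : L ⊆ F := car_sub (by omega) T hF hLc hqF
  obtain ⟨w, hw, -, hwp⟩ := hF.wt
  have hcoord : ∀ i, ∑ I ∈ F, w I * ind I i = (1 - ε) * q i + (if i = x then 2 * ε else 0) := by
    intro i
    rw [← hp, ← hwp, Finset.sum_apply]
    rfl
  have hFS : ∀ I ∈ F, I ⊆ insert x S := by
    intro I hI i hi
    by_contra hcon
    rw [Finset.mem_insert, not_or] at hcon
    have h1 := hcoord i
    rw [if_neg hcon.1, hqS i hcon.2, mul_zero, add_zero] at h1
    have h2 := (Finset.sum_eq_zero_iff_of_nonneg (fun J hJ => mul_nonneg (hw J hJ).le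
      (by unfold ind; split_ifs <;> norm_num))).1 h1 I hI
    rw [show ind I i = 1 from if_pos hi, mul_one] at h2
    exact (hw I hI).ne' h2
  have hFcard : F.card ≤ S.card + 1 := by
    have h1 := odh_card (by omega) hF _ hFS
    rwa [Finset.card_insert_of_notMem hx] at h1
  obtain ⟨C, hCF, hxC⟩ : ∃ C ∈ F, x ∈ C := by
    by_contra hcon
    push Not at hcon
    have h1 := hcoord x
    rw [if_pos rfl, hqx, mul_zero, zero_add] at h1
    have h2 : ∑ I ∈ F, w I * ind I x = 0 := by
      refine Finset.sum_eq_zero fun I hI => ?_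
      simp [ind, hcon I hI]
    rw [h2] at h1
    linarith
  have hC2 := hF.card C hCF
  obtain ⟨z, hz⟩ : ∃ z, C.erase x = {z} := by
    rw [← Finset.card_eq_one, Finset.card_erase_of_mem hxC, hC2]
  have hzC : z ∈ C.erase x := by rw [hz]; exact Finset.mem_singleton_self z
  obtain ⟨hzx, hzC'⟩ := Finset.mem_erase.1 hzC
  have hzS : z ∈ S := by
    rcases Finset.mem_insert.1 (hFS C hCF hzC') with h | h
    · exact absurd h hzx
    · exact h
  have hCpair : C = {x, z} := by
    rw [← Finset.insert_erase hxC, hz]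
  have hCL : C ∉ L := fun h => hx (hLS C h hxC)
  have hFeq : insert C L = F := by
    refine Finset.eq_of_subset_of_card_le ?_ ?_
    · intro I hI
      rcases Finset.mem_insert.1 hI with rfl | hI
      · exact hCF
      · exact hsub hI
    · rw [Finset.card_insert_of_notMem hCL]
      omega
  refine ⟨z, hzS, ?_⟩
  intro σ hσ hσx hσL
  have hsymm : σ.symm x = x := by
    rw [Equiv.symm_apply_eq]
    exact hσx.symm
  have hqfix : ∀ i, q (σ.symm i) = q i := by
    intro i
    have h1 := bary_fixed L ∅ σ hσL (Finset.map_empty _) 0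
    rw [zero_smul, add_zero, ← hq] at h1
    exact congrFun h1 i
  have hfix : permute σ (q + ε • (q - b)) = q + ε • (q - b) := by
    funext i
    show (q + ε • (q - b)) (σ.symm i) = _
    rw [hp, hp, hqfix]
    congr 1
    by_cases h : i = x
    · rw [h, hsymm]
    · rw [if_neg h, if_neg]
      intro h2
      apply h
      rw [Equiv.symm_apply_eq] at h2
      rw [h2, hσx]
  have h1 := car_inv (by omega) T hT hF hσ hfix C hCF
  rw [← hFeq] at h1
  have hxm : x ∈ C.map σ.toEmbedding := by
    rw [Finset.mem_map_equiv, hsymm]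
    exact hxC
  rcases Finset.mem_insert.1 h1 with h1 | h1
  · have h2 : σ z ∈ C := by
      rw [← h1]
      exact Finset.mem_map_of_mem σ.toEmbedding hzC'
    rw [hCpair, Finset.mem_insert, Finset.mem_singleton] at h2
    rcases h2 with h2 | h2
    · exact absurd (σ.injective (h2.trans hσx.symm)) hzx
    · exact h2
  · exact absurd (hLS _ h1 hxm) hx

private theorem odh_three {n : ℕ} {V : Type} [AddCommGroup V] (hcyc : ¬ IsAddCyclic V)
    (ρ : Fin n ≃ V) : 3 < n := by
  by_contra hcon
  have hN : Nat.card V = n := by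
    rw [← Nat.card_congr ρ, Nat.card_eq_fintype_card, Fintype.card_fin]
  rcases (by omega : n = 0 ∨ n = 1 ∨ n = 2 ∨ n = 3) with h | h | h | h
  · subst h
    exact (ρ.symm 0).elim0
  · subst h
    apply hcyc
    haveI : Subsingleton V := ρ.symm.subsingleton
    infer_instance
  · apply hcyc
    haveI : Fact (Nat.Prime 2) := ⟨Nat.prime_two⟩
    exact isAddCyclic_of_prime_card (p := 2) (by rw [hN, h])
  · apply hcyc
    haveI : Fact (Nat.Prime 3) := ⟨Nat.prime_three⟩
    exact isAddCyclic_of_prime_card (p := 3) (by rw [hN, h])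

theorem no_invariant_of_odd {n : ℕ} {V : Type} [AddCommGroup V]
    (hodd : ∀ v : V, v + v = 0 → v = 0) (hcyc : ¬ IsAddCyclic V) (ρ : Fin n ≃ V)
    (T : LatticeTriangulation 2 n) (hT : Invariant (generalizedDihedral ρ) T) : False := by
  classical
  have hn : 3 < n := odh_three hcyc ρ
  obtain ⟨D, hD, ⟨B₀, hB₀⟩, hle, hinv⟩ :=
    centre_carrier (by omega : 0 < 2) (by omega : 2 < n) T hT
  obtain ⟨x, y, hxy, rfl⟩ := Finset.card_eq_two.1 (hD.card B₀ hB₀)
  obtain ⟨d, hd⟩ : ∃ d : V, d = ρ y - ρ x := ⟨_, rfl⟩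
  have hd0 : d ≠ 0 := by
    intro h
    rw [h] at hd
    exact hxy (ρ.injective (sub_eq_zero.1 hd.symm)).symm
  have h2d : d + d ≠ 0 := fun h => hd0 (hodd d h)
  -- the translations and the reflections
  have htr : ∀ b : V, ∃ σ ∈ generalizedDihedral ρ, ∀ i, ρ (σ i) = b + ρ i := by
    intro b
    have h : ∀ i, ρ (((ρ.trans (Equiv.addLeft b)).trans ρ.symm) i) = b + ρ i := by
      intro i
      simp
    exact ⟨(ρ.trans (Equiv.addLeft b)).trans ρ.symm, ⟨b, Or.inl h⟩, h⟩
  have hrf : ∀ b : V, ∃ σ ∈ generalizedDihedral ρ, ∀ i, ρ (σ i) = b - ρ i := by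
    intro b
    have h : ∀ i, ρ (((ρ.trans (Equiv.subLeft b)).trans ρ.symm) i) = b - ρ i := by
      intro i
      simp
    exact ⟨(ρ.trans (Equiv.subLeft b)).trans ρ.symm, ⟨b, Or.inr h⟩, h⟩
  obtain ⟨s, -, hsρ⟩ := htr d
  have hs2 : ∀ i, s (s i) ≠ i := by
    intro i h
    have h4 := hsρ (s i)
    rw [h, hsρ i, ← add_assoc] at h4
    apply h2d
    simpa using h4.symm
  -- the carrier of the centre
  have hED : ∀ i, ({i, s i} : Finset (Fin n)) ∈ D := by
    intro i
    obtain ⟨τ, hτ, hτρ⟩ := htr (ρ i - ρ x)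
    have h4 := hinv τ hτ _ hB₀
    rw [odh_map_pair] at h4
    have h5 : τ x = i := by
      apply ρ.injective
      rw [hτρ]
      abel
    have h6 : τ y = s i := by
      apply ρ.injective
      rw [hτρ, hsρ, hd]
      abel
    rwa [h5, h6] at h4
  have hEinj : Function.Injective (fun i : Fin n => ({i, s i} : Finset (Fin n))) := by
    intro i j h
    have h4 : i ∈ ({j, s j} : Finset (Fin n)) := by
      rw [← show ({i, s i} : Finset (Fin n)) = {j, s j} from h]
      exact Finset.mem_insert_self _ _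
    have h5 : s i ∈ ({j, s j} : Finset (Fin n)) := by
      rw [← show ({i, s i} : Finset (Fin n)) = {j, s j} from h]
      exact Finset.mem_insert_of_mem (Finset.mem_singleton_self _)
    rw [Finset.mem_insert, Finset.mem_singleton] at h4 h5
    rcases h4 with h4 | h4
    · exact h4
    · rcases h5 with h5 | h5
      · exfalso
        rw [h4] at h5
        exact hs2 j h5
      · exact s.injective h5
  -- the points outside the coset
  obtain ⟨S, hS⟩ : ∃ S : Finset (Fin n), ∀ i, i ∈ S ↔ ρ i - ρ x ∉ AddSubgroup.zmultiples d :=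
    ⟨Finset.univ.filter fun i => ρ i - ρ x ∉ AddSubgroup.zmultiples d, fun i => by simp⟩
  have hxS : x ∉ S := by
    rw [hS, sub_self, not_not]
    exact zero_mem _
  have hSne : S.Nonempty := by
    by_contra hcon
    rw [Finset.not_nonempty_iff_eq_empty] at hcon
    apply hcyc
    refine ⟨d, fun v => ?_⟩
    by_contra hv
    have h4 : ρ.symm (v + ρ x) ∈ S := by
      rw [hS, Equiv.apply_symm_apply, add_sub_cancel_right]
      exact hv
    rw [hcon] at h4
    exact absurd h4 (Finset.notMem_empty _)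
  have hdz : d ∈ AddSubgroup.zmultiples d := AddSubgroup.mem_zmultiples d
  have hsS : ∀ i ∈ S, s i ∈ S := by
    intro i hi
    rw [hS] at hi ⊢
    intro h
    apply hi
    rw [hsρ, show d + ρ i - ρ x = d + (ρ i - ρ x) by abel] at h
    exact (add_mem_cancel_left hdz).1 h
  obtain ⟨L, hL⟩ : ∃ L : Finset (Finset (Fin n)),
      L = S.image (fun i : Fin n => ({i, s i} : Finset (Fin n))) := ⟨_, rfl⟩
  have hLne : L.Nonempty := by rw [hL]; exact hSne.image _
  have hLD : L ⊆ D := by
    intro I hI
    rw [hL] at hI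
    obtain ⟨i, -, rfl⟩ := Finset.mem_image.1 hI
    exact hED i
  have hLS : ∀ I ∈ L, I ⊆ S := by
    intro I hI
    rw [hL] at hI
    obtain ⟨i, hi, rfl⟩ := Finset.mem_image.1 hI
    intro j hj
    rw [Finset.mem_insert, Finset.mem_singleton] at hj
    rcases hj with rfl | rfl
    · exact hi
    · exact hsS i hi
  have hLcard : S.card ≤ L.card := by
    rw [hL, Finset.card_image_of_injective _ hEinj]
  obtain ⟨z, hzS, hz⟩ := ray_lemma T hT hD L hLne hLD S x hxS hLS hLcard
  -- the reflection in `x`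
  obtain ⟨r, hrG, hrρ⟩ := hrf (ρ x + ρ x)
  have hrx : r x = x := by
    apply ρ.injective
    rw [hrρ]
    abel
  have hrL : ∀ I ∈ L, I.map r.toEmbedding ∈ L := by
    intro I hI
    rw [hL] at hI ⊢
    obtain ⟨i, hi, rfl⟩ := Finset.mem_image.1 hI
    have h6 := hsS i hi
    rw [Finset.mem_image]
    refine ⟨r (s i), ?_, ?_⟩
    · rw [hS] at h6 ⊢
      intro h
      apply h6
      rw [hrρ, show ρ x + ρ x - ρ (s i) - ρ x = -(ρ (s i) - ρ x) by abel] at h
      exact neg_mem_iff.1 h
    · have h7 : s (r (s i)) = r i := by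
        apply ρ.injective
        rw [hsρ, hrρ, hrρ, hsρ]
        abel
      show ({r (s i), s (r (s i))} : Finset (Fin n)) = ({i, s i} : Finset (Fin n)).map r.toEmbedding
      rw [h7, odh_map_pair, Finset.pair_comm]
  have hrz := hz r hrG hrx hrL
  have h8 := hrρ z
  rw [hrz] at h8
  have h9 : (ρ z - ρ x) + (ρ z - ρ x) = 0 := by
    have h10 : ρ z + ρ z = ρ x + ρ x := eq_sub_iff_add_eq.1 h8
    rw [show (ρ z - ρ x) + (ρ z - ρ x) = (ρ z + ρ z) - (ρ x + ρ x) by abel, h10, sub_self]
  have h11 : z = x := ρ.injective (sub_eq_zero.1 (hodd _ h9))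
  rw [h11] at hzS
  exact hxS hzS

/-- No group which contains all maps `v ↦ b + v` and `v ↦ b - v` of a noncyclic abelian group of
odd order leaves a lattice triangulation of the second hypersimplex, or of its dual, invariant. -/
theorem no_triangulation_odd {k n : ℕ} (hk : k = 2 ∨ k + 2 = n) {V : Type}
    [AddCommGroup V] (hodd : ∀ v : V, v + v = 0 → v = 0) (hcyc : ¬ IsAddCyclic V)
    (ρ : Fin n ≃ V) (G : Subgroup (Equiv.Perm (Fin n))) (hG : generalizedDihedral ρ ≤ G) :
    ¬ ∃ T : LatticeTriangulation k n, Invariant G T := by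
  rintro ⟨T, hT⟩
  have h2 : ∃ T : LatticeTriangulation 2 n, Invariant G T := by
    rcases hk with rfl | hk
    · exact ⟨T, hT⟩
    · have h := exists_dual (by omega : k ≤ n) T hT
      rwa [show n - k = 2 by omega] at h
  obtain ⟨T', hT'⟩ := h2
  exact no_invariant_of_odd hodd hcyc ρ T' fun σ hσ => hT' σ (hG hσ)

end Pool.Agent.Lib.HyS
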