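import Pool.Agent.Lib.HyN.OddDih

/-!
# HyN: transitive groups whose point stabilisers fix one point only

If such a group leaves a lattice triangulation of the second hypersimplex invariant, then the
carrier of the centre is the set of the edges of a cycle through all points.
-/

namespace Pool.Agent.Lib.HyS

private theorem trc_star_le {n : ℕ} {G : Subgroup (Equiv.Perm (Fin n))}
    {D : Finset (Finset (Fin n))} (hinv : ∀ σ ∈ G, ∀ I ∈ D, I.map σ.toEmbedding ∈ D)
    {σ : Equiv.Perm (Fin n)} (hσ : σ ∈ G) (v : Fin n) :
    (D.filter fun I => v ∈ I).card ≤ (D.filter fun I => σ v ∈ I).card := by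
  classical
  have hinj : Function.Injective (fun I : Finset (Fin n) => I.map σ.toEmbedding) :=
    Finset.map_injective _
  rw [← Finset.card_image_of_injective _ hinj]
  refine Finset.card_le_card ?_
  intro J hJ
  obtain ⟨I, hI, rfl⟩ := Finset.mem_image.1 hJ
  rw [Finset.mem_filter] at hI ⊢
  exact ⟨hinv σ hσ I hI.1, Finset.mem_map_of_mem σ.toEmbedding hI.2⟩

private theorem trc_count {n : ℕ} (D : Finset (Finset (Fin n))) (S : Finset (Fin n)) :
    ∑ v ∈ S, (D.filter fun I => v ∈ I).card = ∑ I ∈ D, (S.filter fun v => v ∈ I).card := by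
  simp only [Finset.card_filter]
  exact Finset.sum_comm

private def trcGraph {n : ℕ} (D : Finset (Finset (Fin n))) : SimpleGraph (Fin n) :=
  SimpleGraph.fromRel (fun a b => ({a, b} : Finset (Fin n)) ∈ D)

private theorem trc_adj {n : ℕ} (D : Finset (Finset (Fin n))) (a b : Fin n) :
    (trcGraph D).Adj a b ↔ a ≠ b ∧ ({a, b} : Finset (Fin n)) ∈ D := by
  rw [trcGraph, SimpleGraph.fromRel_adj, Finset.pair_comm b a, or_self]

private theorem trc_map_pair {n : ℕ} (σ : Equiv.Perm (Fin n)) (x y : Fin n) :
    ({x, y} : Finset (Fin n)).map σ.toEmbedding = {σ x, σ y} := by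
  rw [Finset.map_insert, Finset.map_singleton]
  rfl

/-- the neighbours of a point -/
private theorem trc_nbr {n : ℕ} (D : Finset (Finset (Fin n))) (hD2 : ∀ I ∈ D, I.card = 2)
    (v : Fin n) : ((trcGraph D).neighborSet v).ncard = (D.filter fun I => v ∈ I).card := by
  classical
  have h1 : ((D.filter fun I => v ∈ I) : Finset (Finset (Fin n))) =
      (Finset.univ.filter fun w => (trcGraph D).Adj v w).image
        (fun w => ({v, w} : Finset (Fin n))) := by
    ext I
    rw [Finset.mem_filter, Finset.mem_image]
    constructor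
    · rintro ⟨hI, hv⟩
      obtain ⟨w, hw⟩ : ∃ w, I.erase v = {w} := by
        rw [← Finset.card_eq_one, Finset.card_erase_of_mem hv, hD2 I hI]
      have hwI : w ∈ I.erase v := by rw [hw]; exact Finset.mem_singleton_self w
      have hIe : ({v, w} : Finset (Fin n)) = I := by
        rw [← Finset.insert_erase hv, hw]
      refine ⟨w, ?_, hIe⟩
      rw [Finset.mem_filter, trc_adj, hIe]
      exact ⟨Finset.mem_univ _, (Finset.ne_of_mem_erase hwI).symm, hI⟩
    · rintro ⟨w, hw, rfl⟩
      rw [Finset.mem_filter, trc_adj] at hw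
      exact ⟨hw.2.2, Finset.mem_insert_self _ _⟩
  have hinj : Set.InjOn (fun w => ({v, w} : Finset (Fin n)))
      ((Finset.univ.filter fun w => (trcGraph D).Adj v w : Finset (Fin n)) : Set (Fin n)) := by
    intro a ha b hb hab
    rw [Finset.coe_filter] at ha hb
    have ha' := ha.2
    rw [trc_adj] at ha'
    have h2 : a ∈ ({v, b} : Finset (Fin n)) := by
      rw [← show ({v, a} : Finset (Fin n)) = {v, b} from hab]
      exact Finset.mem_insert_of_mem (Finset.mem_singleton_self _)
    rw [Finset.mem_insert, Finset.mem_singleton] at h2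
    rcases h2 with h2 | h2
    · exact absurd h2.symm ha'.1
    · exact h2
  rw [h1, Finset.card_image_of_injOn hinj, ← Set.ncard_coe_finset]
  congr 1
  ext w
  simp

theorem cycle_label {n : ℕ} (hn : 4 ≤ n) (G : Subgroup (Equiv.Perm (Fin n)))
    (htr : ∀ a b : Fin n, ∃ σ ∈ G, σ a = b) (x : Fin n)
    (hx : ∀ y : Fin n, (∀ σ ∈ G, σ x = x → σ y = y) → y = x)
    (T : LatticeTriangulation 2 n) (hT : Invariant G T) :
    ∃ (c : Fin n ≃ Fin n) (D : Finset (Finset (Fin n))),
      D = Finset.univ.image (fun i => ({c i, c (finRotate n i)} : Finset (Fin n))) ∧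
      ∀ σ ∈ G, ∀ I ∈ D, I.map σ.toEmbedding ∈ D := by
  classical
  obtain ⟨D, hD, ⟨B₀, hB₀⟩, hle, hinv⟩ :=
    centre_carrier (by omega : 0 < 2) (by omega : 2 < n) T hT
  have hD2 : ∀ I ∈ D, I.card = 2 := hD.card
  -- all degrees are equal
  have hdeg : ∀ v, (D.filter fun I => v ∈ I).card = (D.filter fun I => x ∈ I).card := by
    intro v
    obtain ⟨σ, hσ, hσv⟩ := htr v x
    obtain ⟨τ, hτ, hτv⟩ := htr x v
    refine le_antisymm ?_ ?_
    · have h := trc_star_le hinv hσ v
      rwa [hσv] at h
    · have h := trc_star_le hinv hτ x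
      rwa [hτv] at h
  have htot : n * (D.filter fun I => x ∈ I).card = 2 * D.card := by
    have h1 := trc_count D Finset.univ
    simp only [hdeg] at h1
    rw [Finset.sum_const, Finset.card_univ, Fintype.card_fin, smul_eq_mul] at h1
    rw [h1]
    have h2 : ∀ I ∈ D, ((Finset.univ : Finset (Fin n)).filter fun v => v ∈ I).card = 2 := by
      intro I hI
      rw [Finset.filter_univ_mem, hD2 I hI]
    rw [Finset.sum_congr rfl h2, Finset.sum_const, smul_eq_mul, mul_comm]
  have hdx2 : (D.filter fun I => x ∈ I).card = 2 := by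
    have h1 : (D.filter fun I => x ∈ I).card ≤ 2 := by
      by_contra hcon
      push Not at hcon
      have h2 : n * 3 ≤ n * (D.filter fun I => x ∈ I).card := Nat.mul_le_mul_left _ hcon
      omega
    have h2 : (D.filter fun I => x ∈ I).card ≠ 0 := by
      intro h
      rw [h, mul_zero] at htot
      have h3 := Finset.card_pos.2 ⟨B₀, hB₀⟩
      omega
    have h3 : (D.filter fun I => x ∈ I).card ≠ 1 := by
      intro h
      obtain ⟨I, hI⟩ := Finset.card_eq_one.1 h
      have hIm : I ∈ D.filter fun I => x ∈ I := by rw [hI]; exact Finset.mem_singleton_self I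
      obtain ⟨hID, hxI⟩ := Finset.mem_filter.1 hIm
      obtain ⟨y, hy⟩ : ∃ y, I.erase x = {y} := by
        rw [← Finset.card_eq_one, Finset.card_erase_of_mem hxI, hD2 I hID]
      have hyI : y ∈ I.erase x := by rw [hy]; exact Finset.mem_singleton_self y
      obtain ⟨hyx, hyI'⟩ := Finset.mem_erase.1 hyI
      have hIe : I = {x, y} := by rw [← Finset.insert_erase hxI, hy]
      apply hyx
      apply hx
      intro σ hσ hσx
      have h4 : I.map σ.toEmbedding ∈ D.filter fun I => x ∈ I := by
        rw [Finset.mem_filter]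
        refine ⟨hinv σ hσ I hID, ?_⟩
        have h5 := Finset.mem_map_of_mem σ.toEmbedding hxI
        rwa [show σ.toEmbedding x = x from hσx] at h5
      rw [hI, Finset.mem_singleton] at h4
      have h6 : σ y ∈ I := by
        rw [← h4]
        exact Finset.mem_map_of_mem σ.toEmbedding hyI'
      rw [hIe, Finset.mem_insert, Finset.mem_singleton] at h6
      rcases h6 with h6 | h6
      · exact absurd (σ.injective (h6.trans hσx.symm)) hyx
      · exact h6
    omega
  have hDn : D.card = n := by
    rw [hdx2] at htot
    omega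
  have hdeg2 : ∀ v, (D.filter fun I => v ∈ I).card = 2 := fun v => (hdeg v).trans hdx2
  have hnb : ∀ v, ((trcGraph D).neighborSet v).ncard = 2 := fun v => by
    rw [trc_nbr D hD2, hdeg2]
  -- the graph is connected
  have hreach : ∀ v, (trcGraph D).Reachable x v := by
    by_contra hcon
    push Not at hcon
    obtain ⟨v₀, hv₀⟩ := hcon
    obtain ⟨S, hS⟩ : ∃ S : Finset (Fin n), ∀ i, i ∈ S ↔ ¬ (trcGraph D).Reachable x i :=
      ⟨Finset.univ.filter fun i => ¬ (trcGraph D).Reachable x i, fun i => by simp⟩
    have hxS : x ∉ S := by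
      rw [hS, not_not]
    have hcl : ∀ I ∈ D, ∀ v ∈ I, v ∈ S → I ⊆ S := by
      intro I hI v hv hvS w hw
      by_cases hvw : v = w
      · rw [← hvw]
        exact hvS
      · have hIe : ({v, w} : Finset (Fin n)) = I := by
          refine Finset.eq_of_subset_of_card_le ?_ ?_
          · intro j hj
            rw [Finset.mem_insert, Finset.mem_singleton] at hj
            rcases hj with rfl | rfl
            · exact hv
            · exact hw
          · rw [hD2 I hI, Finset.card_pair hvw]
        rw [hS] at hvS ⊢
        intro h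
        apply hvS
        refine h.trans ?_
        have h1 : (trcGraph D).Adj w v := by
          rw [trc_adj, Finset.pair_comm, hIe]
          exact ⟨Ne.symm hvw, hI⟩
        exact h1.reachable
    have hLcard : S.card ≤ (D.filter fun I => I ⊆ S).card := by
      have h1 := trc_count D S
      simp only [hdeg2] at h1
      rw [Finset.sum_const, smul_eq_mul] at h1
      have h2 : ∑ I ∈ D, (S.filter fun v => v ∈ I).card ≤ ∑ I ∈ D, if I ⊆ S then 2 else 0 := by
        refine Finset.sum_le_sum fun I hI => ?_
        by_cases hIS : I ⊆ S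
        · rw [if_pos hIS, ← hD2 I hI]
          refine Finset.card_le_card ?_
          intro v hv
          exact (Finset.mem_filter.1 hv).2
        · rw [if_neg hIS, Nat.le_zero, Finset.card_eq_zero]
          refine Finset.filter_eq_empty_iff.2 ?_
          intro v hvS hvI
          exact hIS (hcl I hI v hvI hvS)
      rw [← Finset.sum_filter, Finset.sum_const, smul_eq_mul] at h2
      omega
    have hLne : (D.filter fun I => I ⊆ S).Nonempty := by
      rw [← Finset.card_pos]
      have h1 : 0 < S.card := Finset.card_pos.2 ⟨v₀, (hS v₀).2 hv₀⟩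
      omega
    obtain ⟨z, hzS, hz⟩ := ray_lemma T hT hD (D.filter fun I => I ⊆ S) hLne
      (Finset.filter_subset _ _) S x hxS (fun I hI => (Finset.mem_filter.1 hI).2) hLcard
    have hzx : z = x := by
      apply hx
      intro σ hσ hσx
      refine hz σ hσ hσx ?_
      intro I hI
      rw [Finset.mem_filter] at hI ⊢
      refine ⟨hinv σ hσ I hI.1, ?_⟩
      intro w hw
      rw [Finset.mem_map] at hw
      obtain ⟨v, hv, rfl⟩ := hw
      have hvS := hI.2 hv
      rw [hS] at hvS ⊢
      intro h
      apply hvS
      have hiso : ∀ a b : Fin n, (trcGraph D).Adj (σ a) (σ b) ↔ (trcGraph D).Adj a b := by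
        intro a b
        rw [trc_adj, trc_adj, σ.injective.ne_iff, ← trc_map_pair]
        refine and_congr_right fun _ => ⟨fun h => ?_, fun h => hinv σ hσ _ h⟩
        have h2 := hinv σ⁻¹ (G.inv_mem hσ) _ h
        rw [trc_map_pair, trc_map_pair] at h2
        rwa [show σ⁻¹ (σ a) = a from σ.symm_apply_apply a,
          show σ⁻¹ (σ b) = b from σ.symm_apply_apply b] at h2
      have h3 : (trcGraph D).Reachable (σ x) (σ v) := by
        rw [hσx]
        exact h
      exact (SimpleGraph.Iso.reachable_iff
        (φ := (⟨σ, fun {a b} => hiso a b⟩ : trcGraph D ≃g trcGraph D))).1 h3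
    rw [hzx] at hzS
    exact hxS hzS
  -- the cycle
  have hcycles : (trcGraph D).IsCycles := fun v _ => hnb v
  have hne : ((trcGraph D).neighborSet x).Nonempty := by
    rw [← Set.ncard_pos, hnb]
    omega
  obtain ⟨p, hp, hpv⟩ := hcycles.exists_cycle_toSubgraph_verts_eq_connectedComponentSupp
    (c := (trcGraph D).connectedComponentMk x)
    (by rw [SimpleGraph.ConnectedComponent.mem_supp_iff]) hne
  have hall : ∀ v, v ∈ p.support := by
    intro v
    rw [← SimpleGraph.Walk.mem_verts_toSubgraph, hpv, SimpleGraph.ConnectedComponent.mem_supp_iff,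
      SimpleGraph.ConnectedComponent.eq]
    exact (hreach v).symm
  have hlen : p.length = n := by
    have h1 : p.support.tail.Nodup := hp.support_nodup
    have h2 : p.support.tail.toFinset = Finset.univ := by
      ext v
      simp only [List.mem_toFinset, Finset.mem_univ, iff_true]
      have h3 := hall v
      rw [← SimpleGraph.Walk.cons_tail_support, List.mem_cons] at h3
      rcases h3 with h3 | h3
      · rw [h3]
        exact SimpleGraph.Walk.end_mem_tail_support hp.not_nil
      · exact h3
    have h4 := List.toFinset_card_of_nodup h1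
    rw [h2, Finset.card_univ, Fintype.card_fin, List.length_tail,
      SimpleGraph.Walk.length_support] at h4
    omega
  have hinjc : Function.Injective (fun i : Fin n => p.getVert (i : ℕ)) := by
    intro i j hij
    have h1 := hp.getVert_injOn' (x₁ := (i : ℕ)) (x₂ := (j : ℕ))
      (by show (i : ℕ) ≤ p.length - 1; omega) (by show (j : ℕ) ≤ p.length - 1; omega) hij
    exact Fin.ext h1
  obtain ⟨c, hc⟩ : ∃ c : Fin n ≃ Fin n, ∀ i : Fin n, c i = p.getVert (i : ℕ) :=
    ⟨Equiv.ofBijective _ (Finite.injective_iff_bijective.1 hinjc), fun i => rfl⟩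
  obtain ⟨m, rfl⟩ : ∃ m, n = m + 1 := ⟨n - 1, by omega⟩
  have hrot : ∀ i : Fin (m + 1), c (finRotate (m + 1) i) = p.getVert ((i : ℕ) + 1) := by
    intro i
    rw [hc]
    by_cases hi : (i : ℕ) < m
    · rw [finRotate_of_lt hi]
    · have hi' : i = Fin.last m := Fin.ext (by rw [Fin.val_last]; omega)
      rw [hi', finRotate_last, Fin.val_zero, Fin.val_last, SimpleGraph.Walk.getVert_zero]
      have h1 := p.getVert_length
      rw [hlen] at h1
      exact h1.symm
  have hrr : ∀ i : Fin (m + 1), finRotate (m + 1) (finRotate (m + 1) i) ≠ i := by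
    intro i h
    have h1 := congrArg (fun j : Fin (m + 1) => (j : ℕ)) h
    simp only [finRotate_apply, Fin.val_add, Fin.val_one'] at h1
    have h2 := i.isLt
    rw [Nat.mod_eq_of_lt (by omega : 1 < m + 1)] at h1
    by_cases h3 : (i : ℕ) + 1 < m + 1
    · rw [Nat.mod_eq_of_lt h3] at h1
      by_cases h4 : (i : ℕ) + 1 + 1 < m + 1
      · rw [Nat.mod_eq_of_lt h4] at h1
        omega
      · rw [show (i : ℕ) + 1 + 1 = m + 1 by omega, Nat.mod_self] at h1
        omega
    · rw [show (i : ℕ) + 1 = m + 1 by omega, Nat.mod_self, zero_add,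
        Nat.mod_eq_of_lt (by omega : 1 < m + 1)] at h1
      omega
  refine ⟨c, D, ?_, hinv⟩
  symm
  refine Finset.eq_of_subset_of_card_le ?_ ?_
  · intro I hI
    obtain ⟨i, -, rfl⟩ := Finset.mem_image.1 hI
    have h1 : (trcGraph D).Adj (p.getVert (i : ℕ)) (p.getVert ((i : ℕ) + 1)) :=
      p.adj_getVert_succ (by rw [hlen]; exact i.isLt)
    rw [trc_adj, ← hrot, ← hc] at h1
    exact h1.2
  · have hEinj : Function.Injective
        (fun i : Fin (m + 1) => ({c i, c (finRotate (m + 1) i)} : Finset (Fin (m + 1)))) := by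
      intro i j h
      have h4 : c i ∈ ({c j, c (finRotate (m + 1) j)} : Finset (Fin (m + 1))) := by
        rw [← show ({c i, c (finRotate (m + 1) i)} : Finset (Fin (m + 1))) =
          {c j, c (finRotate (m + 1) j)} from h]
        exact Finset.mem_insert_self _ _
      have h5 : c (finRotate (m + 1) i) ∈
          ({c j, c (finRotate (m + 1) j)} : Finset (Fin (m + 1))) := by
        rw [← show ({c i, c (finRotate (m + 1) i)} : Finset (Fin (m + 1))) =
          {c j, c (finRotate (m + 1) j)} from h]
        exact Finset.mem_insert_of_mem (Finset.mem_singleton_self _)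
      rw [Finset.mem_insert, Finset.mem_singleton] at h4 h5
      rcases h4 with h4 | h4
      · exact c.injective h4
      · rcases h5 with h5 | h5
        · exfalso
          rw [c.injective h4] at h5
          exact hrr j (c.injective h5)
        · exact (finRotate (m + 1)).injective (c.injective h5)
    rw [Finset.card_image_of_injective _ hEinj, Finset.card_univ, Fintype.card_fin]
    omega

end Pool.Agent.Lib.HyS
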