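import Pool.Agent.Lib.HyN.TrCyc
import Pool.Agent.Lib.HyN.CycDih
import Pool.Agent.Lib.HyS.Conj
import Pool.Agent.Lib.HyS.Alc

/-!
# HyN: transitive groups with a point stabiliser which fixes only one point
-/

namespace Pool.Agent.Lib.HyS

/-- If such a group leaves a lattice triangulation of the second hypersimplex invariant, then it is
conjugate to a subgroup of the dihedral group. -/
theorem transitive_dihedral {n : ℕ} (hn : 4 ≤ n) (G : Subgroup (Equiv.Perm (Fin n)))
    (htr : MulAction.IsPretransitive G (Fin n)) (x : Fin n)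
    (hx : ∀ y : Fin n, (∀ σ ∈ G, σ x = x → σ y = y) → y = x)
    (T : LatticeTriangulation 2 n) (hT : Invariant G T) :
    ∃ ρ : Equiv.Perm (Fin n), ∀ σ ∈ G, ρ * σ * ρ⁻¹ ∈ dihedral n := by
  obtain ⟨c, D, hD, hinv⟩ := cycle_label hn G (fun a b => by
    obtain ⟨g, hg⟩ := htr.exists_smul_eq a b
    exact ⟨g, g.2, hg⟩) x hx T hT
  exact cycle_dihedral (by omega) c G D hD hinv

/-- For a transitive group with a point stabiliser which fixes only one point, the second
hypersimplex, or its dual, has an invariant lattice triangulation if and only if the group is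
conjugate to a subgroup of the dihedral group. -/
theorem transitive_iff {k n : ℕ} (hn : 4 ≤ n) (hk : k = 2 ∨ k + 2 = n)
    (G : Subgroup (Equiv.Perm (Fin n))) (htr : MulAction.IsPretransitive G (Fin n)) (x : Fin n)
    (hx : ∀ y : Fin n, (∀ σ ∈ G, σ x = x → σ y = y) → y = x) :
    (∃ T : LatticeTriangulation k n, Invariant G T) ↔
      ∃ ρ : Equiv.Perm (Fin n), ∀ σ ∈ G, ρ * σ * ρ⁻¹ ∈ dihedral n := by
  constructor
  · rintro ⟨T, hT⟩
    have h2 : ∃ T : LatticeTriangulation 2 n, Invariant G T := by
      rcases hk with rfl | hk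
      · exact ⟨T, hT⟩
      · have h := exists_dual (by omega : k ≤ n) T hT
        rwa [show n - k = 2 by omega] at h
    obtain ⟨T', hT'⟩ := h2
    exact transitive_dihedral hn G htr x hx T' hT'
  · rintro ⟨ρ, hρ⟩
    obtain ⟨T, hT⟩ := alcoved_exists k n
    exact exists_conj T hT ρ hρ

end Pool.Agent.Lib.HyS
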